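import Mathlib

/-!
# Project KC: many fields of EVERY degree with large `m`-rank, exponent `1/8 - O(1/n)` (MP_176ace_nt slot 4)

THEOREM (final). `n, m ≥ 2`, `r ≥ 0`, `d = ⌊n/2⌋ - r ≥ 2`. There are `c > 0`, `X₀` such that for `X ≥ X₀` there are at least
`c X ^ ((d(d+1)/2 - (n+1))/(n(n-1)))` fields `L` of degree `n` with at most one real place, `|disc L| ≤ X` and `(ℤ/m)^r ⊂ Cl(L)`.

IDEA. `k = n - d = ⌈n/2⌉ + r`, `f = (x - a_1) ⋯ (x - a_k) g + w^(s m)` with fixed `a_i`, a fixed prime `w`, `10 H < w^(sm/n) < K H`, and `g` monic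
of degree `d` in the box `0 ≤ g_j ≤ H^(d-j)`, in fixed residue classes modulo `M`. `L = ℚ(θ)`, `f(θ) = 0`: at most one real place, so `⌈n/2⌉ - 1` fundamental
units; `(θ - a_i)` is the `m`-th power of an ideal; the `θ - a_i` are independent modulo `ℓ`-th powers (`ℓ ∣ m`) by local conditions at `0` modulo primes
`q_i`; so `m`-rank `≥ k - ⌈n/2⌉ = r`. `H^(d(d+1)/2)` polynomials, at most `(CH)^(n+1)` of them for one field, `|disc| ≤ (CH)^(n(n-1))`.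

MODULES (Mathlib only, independent of each other): 1 PRM, 2 GP, 3 GQ (with GW), 4 LOC, 5 CPX, 6 FIB, 7 PLC, 8 NUM, 9 IDL.
Prove `theorem t_XXX : S_XXX` in `Pool/Agent/D0H<your number>/KC/Xxx.lean`, import `Pool.Agent.D0H34.KC.Stm`.
-/

set_option autoImplicit false

open Polynomial NumberField nonZeroDivisors

namespace Pool.Agent.D0H34.KC

/-- `f = (x - a_1) ⋯ (x - a_k) g + c` -/
noncomputable def pol {k : ℕ} (a : Fin k → ℤ) (g : ℤ[X]) (c : ℤ) : ℤ[X] := (∏ i, (X - C (a i))) * g + C c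

/-- **1 PRM** (40 min). Choice of the numbers.

PROOF. `p` a prime `≡ 1` mod `n`, `p > n` (`Nat.exists_prime_gt_modEq_one`). `q_1 < q_2 < … ` primes `> p`, `≡ 1` mod `m` (the same lemma, one after another; e.g. by
induction: for all `k` and `B` there are injective `q : Fin k → ℕ` with all `q i` prime, `> B`, `≡ 1` mod `m`).  `ZMod p` has a primitive `n`-th root of unity `ζ`
(its unit group is cyclic of order `p - 1`, `n ∣ p - 1`: `g ^ ((p-1)/n)`); `ρ_i` a generator of `(ZMod (q i))ˣ`.  By the Chinese remainder theorem for the coprime moduli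
`p, q_1, …, q_k` choose integers `a_i` with `a_i ≡ ζ^i` mod `p`, `a_i ≡ -1` mod `q_j` (`j ≠ i`), `-a_i ≡ ρ_i` mod `q_i`.  (`k ≤ n`, so `ζ^i ≠ ζ^j`; so the `a_i` are different
modulo `p` and not `0`.)  `w` a prime `≡ 1` mod `p` with `w > p`, `w >` all `q i`, `w > 2 max |a_i|`: so `w` divides neither `a_i ≠ 0` nor `a_i - a_j ≠ 0`.
Last clause: `z = ρ^t`, `ρ^(e - ℓ t) = 1`, so `q_i - 1 ∣ e - ℓ t` and `ℓ ∣ m ∣ q_i - 1`. -/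
def S_PRM : Prop := ∀ (n k m : ℕ), 2 ≤ m → k ≤ n → 1 ≤ n →
  ∃ (p w : ℕ) (q : Fin k → ℕ) (a : Fin k → ℤ), p.Prime ∧ w.Prime ∧ (∀ i, (q i).Prime) ∧
    Function.Injective q ∧ p ≠ w ∧ (∀ i, q i ≠ p ∧ q i ≠ w) ∧ (w : ℤ) ≡ 1 [ZMOD p] ∧
    (∀ i, a i ^ n ≡ 1 [ZMOD p]) ∧ (∀ i j, i ≠ j → ¬ (p : ℤ) ∣ a i - a j) ∧
    (∀ i, ¬ (w : ℤ) ∣ a i) ∧ (∀ i j, i ≠ j → ¬ (w : ℤ) ∣ a i - a j) ∧
    (∀ i j, i ≠ j → a j ≡ -1 [ZMOD q i]) ∧ (∀ i, ¬ (q i : ℤ) ∣ a i) ∧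
    ∀ (i : Fin k) [Fact (q i).Prime] (ℓ : ℕ), ℓ.Prime → ℓ ∣ m → ∀ (e : ℤ) (z : ZMod (q i)), z ≠ 0 →
      ((-a i : ℤ) : ZMod (q i)) ^ e = z ^ ℓ → (ℓ : ℤ) ∣ e

/-- **2 GP** (40 min). Eisenstein at `p`.

PROOF. Over the field `ZMod p` the polynomial `x^n - 1` vanishes at the `k` different points `a_i`, so `∏ (x - a_i) ∣ x^n - 1` (`Finset.prod_dvd_of_coprime` or
`Multiset.prod_X_sub_C_dvd_iff_le_roots`), `x^n - 1 = A ḡ` with `ḡ` monic of degree `d`.  Let `G j` be a lift of `ḡ.coeff j`; for `g ≡ G` mod `p` (all coefficients `j < d`, both monic of degree `d`)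
`f = A g + c ≡ x^n - 1 + 1 = x^n` mod `p`, so `p ∣ f.coeff j` for `j < n`; `f` is monic of degree `n`.  Now change `G 0` by a multiple of `p` such that
`f(0) = A(0) g(0) + c ≡ p` modulo `p^2` (`A(0) = ∏ (-a_i)` is prime to `p`, because `a_i^n ≡ 1`): then `p^2 ∤ f.coeff 0`.  `Polynomial.irreducible_of_eisenstein_criterion`
(or `IsEisensteinAt.irreducible`; `f` monic so primitive). -/
def S_GP : Prop := ∀ (n k d p : ℕ) (a : Fin k → ℤ) (c : ℤ), p.Prime → k + d = n → 1 ≤ d →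
  (∀ i, a i ^ n ≡ 1 [ZMOD p]) → (∀ i j, i ≠ j → ¬ (p : ℤ) ∣ a i - a j) → c ≡ 1 [ZMOD p] →
  ∃ G : ℕ → ℤ, ∀ g : ℤ[X], g.Monic → g.natDegree = d → (∀ j < d, g.coeff j ≡ G j [ZMOD (p : ℤ) ^ 2]) →
    Irreducible (pol a g c)

/-- **3 GQ** (20 min). `f(0) = A(0) g_0 + c`, `f'(0) = A'(0) g_0 + A(0) g_1`, `A(0) = ∏ (-a_i)` is prime to `q`: choose `G 0` with `A(0) G_0 + c ≡ 0` and then
`G 1` with `A'(0) G_0 + A(0) G_1 ≡ 1` modulo `q`. -/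
def S_GQ : Prop := ∀ (k d q : ℕ) (a : Fin k → ℤ) (c : ℤ), q.Prime → 2 ≤ d → (∀ i, ¬ (q : ℤ) ∣ a i) →
  ∃ G : ℕ → ℤ, ∀ g : ℤ[X], g.Monic → g.natDegree = d → (∀ j < d, g.coeff j ≡ G j [ZMOD q]) →
    (q : ℤ) ∣ (pol a g c).eval 0 ∧ ¬ (q : ℤ) ∣ (pol a g c).derivative.eval 0

/-- **3b GW** (20 min). `f'(a_i) = A'(a_i) g(a_i) = ∏_(j ≠ i) (a_i - a_j) g(a_i)`, `g(a_i) ≡ a_i^d` modulo `w`. -/
def S_GW : Prop := ∀ (k d w : ℕ) (a : Fin k → ℤ) (c : ℤ), w.Prime → (∀ i, ¬ (w : ℤ) ∣ a i) →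
  (∀ i j, i ≠ j → ¬ (w : ℤ) ∣ a i - a j) → ∀ g : ℤ[X], g.Monic → g.natDegree = d →
    (∀ j < d, (w : ℤ) ∣ g.coeff j) → ∀ i, ¬ (w : ℤ) ∣ (pol a g c).derivative.eval (a i)

/-- **4 LOC** (40 min).

PROOF. `0` is a simple root of `f` modulo `q`, so by Hensel's lemma (`hensels_lemma`, or `PadicInt` is Henselian) there is `τ ∈ ℤ_[q]` with `f(τ) = 0`, `‖τ‖ < 1`.  `f` is irreducible over `ℚ` (monic, Gauss:
`Polynomial.Monic.irreducible_iff_irreducible_map_fraction_map`), so `F ≅ ℚ[x]/(f)` and there is a ring homomorphism `φ : F → ℚ_[q]` with `φ θ = τ` (e.g. `AdjoinRoot.lift` composed with the inverse of the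
isomorphism `AdjoinRoot f → F`, which is surjective by the hypothesis on `y`; or define `φ` by `y = P(θ) ↦ P(τ)`, well defined because `P(θ) = 0` implies `f ∣ P`).
Apply `φ`: `∏ (τ - a_i)^(e_i) = (φ y)^ℓ`; all `τ - a_i` are units of `ℤ_[q]` (`q ∤ a_i`), so `‖φ y‖ = 1` (`ℓ ≥ 1`), `φ y` comes from a unit of `ℤ_[q]`; reduce by `PadicInt.toZMod`, `τ ↦ 0`. -/
def S_LOC : Prop := ∀ (F : Type) [Field F] [CharZero F] (f : ℤ[X]) (θ : F) (q k : ℕ) [Fact q.Prime]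
  (a : Fin k → ℤ), f.Monic → Irreducible f → aeval θ f = 0 → (∀ y : F, ∃ P : ℚ[X], y = aeval θ P) →
  (q : ℤ) ∣ f.eval 0 → ¬ (q : ℤ) ∣ f.derivative.eval 0 → (∀ i, ¬ (q : ℤ) ∣ a i) →
  ∀ (ℓ : ℕ) (e : Fin k → ℤ) (y : F), 1 ≤ ℓ → ∏ i, (θ - (a i : F)) ^ e i = y ^ ℓ →
    ∃ z : ZMod q, z ≠ 0 ∧ ∏ i, ((-a i : ℤ) : ZMod q) ^ e i = z ^ ℓ

/-- **5 CPX** (50 min). Real and complex roots.

PROOF. `d = n - k ≥ 1`, `A = ∏ (x - a_i)`, `f = A g + c`.  (i) For `|x| ≤ 4H` (real): `|A(x) g(x)| ≤ (5H)^k ∑_(j ≤ d) (4H)^j H^(d-j) ≤ 2 · 5^n H^n ≤ (10 H)^n < c`, so `f(x) > 0`.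
(ii) For `|x| ≥ 4H`: `g(x) = x^d (1 + ∑_(i=1..d) g_(d-i) x^(-i))`, `|∑| ≤ ∑ 4^(-i) ≤ 1/3`; so `A(x) g(x)` has the sign of `x^n` and there is no root of `f` with `x ≥ 4H`, and none with `x ≤ -4H` if `n` is even.
(iii) `n` odd, `x < y ≤ -4H`: `|A(x)| > |A(y)|` or `k = 0`, and `|g(x)| > |g(y)|` (`(-1)^d g` is decreasing on `(-∞, -4H]`: `x g'(x)/x^d = d + ∑ (d-i) g_(d-i) x^(-i)`, and `|∑| ≤ d/3 < d`), so `A g(x) < A g(y) < 0`: at most one of them is `-c`.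
(iv) Complex `z` with `‖z‖ > 4KH`, `K ≥ 1` (because `c > 0`): `‖A(z)‖ ≥ (3/4)^k ‖z‖^k`, `‖g(z)‖ ≥ (2/3) ‖z‖^d`, so `‖A g(z)‖ ≥ (‖z‖/2)^n > (2KH)^n ≥ c` (`k + 1 ≤ n`).
(The cases (i), (ii) for real `x` are cases of estimates for complex `z`; Cauchy bounds in Mathlib are not needed.) -/
def S_CPX : Prop := ∀ (n k H K : ℕ) (a : Fin k → ℤ) (c : ℤ) (g : ℤ[X]), k + 1 ≤ n → 1 ≤ H → g.Monic →
  g.natDegree = n - k → (∀ j < n - k, 0 ≤ g.coeff j ∧ g.coeff j ≤ (H : ℤ) ^ (n - k - j)) →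
  (∀ i, |a i| ≤ H) → (10 * H : ℤ) ^ n < c → c ≤ (K * H : ℤ) ^ n →
  (∀ x y : ℝ, aeval x (pol a g c) = 0 → aeval y (pol a g c) = 0 → x = y) ∧
  ∀ z : ℂ, aeval z (pol a g c) = 0 → ‖z‖ ≤ 4 * K * H

/-- **6 FIB** (30 min). Integers with bounded conjugates.

PROOF. Send `x` to `(⌊2 Re φ_v(x)⌋, ⌊2 Im φ_v(x)⌋)_v`, `φ_v = v.embedding`, `v` the infinite places; values in `[-2B, 2B]`.  It is injective: if `x, y` have the same
image, `|Re|, |Im|` of `φ_v(x - y)` are `< 1/2`, so `v(x - y) < 1` for all `v`; so `|N(x - y)| = ∏ v(x - y)^(mult v) < 1` (`InfinitePlace.prod_eq_abs_norm`), and `x = y`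
(or: `NumberField.Embeddings`/`one_le_of_lt_one`). -/
def S_FIB : Prop := ∀ (F : Type) [Field F] [NumberField F] (B : ℕ) (S : Finset (𝓞 F)),
  (∀ x ∈ S, ∀ φ : F →+* ℂ, ‖φ (x : F)‖ ≤ B) → S.card ≤ (4 * B + 1) ^ (2 * Fintype.card (InfinitePlace F))

/-- **7 PLC** (20 min). A real embedding is determined by the image of `θ`, a real root of `f`; so `r₁ ≤ 1`; `r₁ + 2 r₂ = n`, so the number of infinite places is `⌈n/2⌉`. -/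
def S_PLC : Prop := ∀ (F : Type) [Field F] [NumberField F] (f : ℤ[X]) (θ : F) (n : ℕ), aeval θ f = 0 →
  (∀ y : F, ∃ P : ℚ[X], y = aeval θ P) → Module.finrank ℚ F = n →
  (∀ x y : ℝ, aeval x f = 0 → aeval y f = 0 → x = y) →
  InfinitePlace.nrRealPlaces F ≤ 1 ∧ Fintype.card (InfinitePlace F) = (n + 1) / 2 ∧
    Units.rank F + 1 = (n + 1) / 2

/-- **8 NUM** (40 min). Final inequality.

PROOF. `N = n(n-1) ≥ 2`, `H = ⌊(X / n!^2)^(1/N) / (4K)⌋`.  For large `X`: `H ≥ H₀`, `H ≥ 2M`, `κ X^(1/N) ≤ H ≤ X^(1/N)` with `κ = 1/(8 K n!^(2/N))`.  `⌊H^i / M⌋ ≥ H^i/(2M)` for `i ≥ 1`, so the product is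
`≥ H^(d(d+1)/2)/(2M)^d`; `(16KH + 1)^(n+1) ≤ (17KH)^(n+1)`; and with `E = d(d+1)/2 - (n+1)` (real, maybe negative) `H^E ≥ min(κ^E, 1) X^(E/N)`. -/
def S_NUM : Prop := ∀ (n d M K H₀ : ℕ), 2 ≤ n → 1 ≤ M → 1 ≤ K → ∃ c : ℝ, 0 < c ∧ ∃ X₀ : ℝ, ∀ X : ℝ, X₀ ≤ X →
  ∃ H : ℕ, H₀ ≤ H ∧ 1 ≤ H ∧ ((n.factorial : ℝ) ^ 2 * (4 * K * H) ^ (n * (n - 1))) ≤ X ∧
    c * X ^ ((((d : ℝ) * (d + 1)) / 2 - (n + 1)) / (n * (n - 1))) * (4 * (4 * K * H) + 1) ^ (n + 1) ≤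
      ∏ j ∈ Finset.range d, ((H ^ (d - j) / M : ℕ) : ℝ)

/-- **9 IDL** (30 min; may import `Pool.Agent.D0H34.KG.Eis`: `t_EIS : θ ^ n = q * u → IsCoprime q u → span {q, θ} ^ n = span {q}`).

PROOF. In `𝓞 F`: `f = (X - a_i) h + w^(sm)` with `h = ∏_(j ≠ i) (X - a_j) g`, `f'(a_i) = h(a_i)`.  `x = θ - a_i`, `x · (-h(θ)) = (w^s)^m`.  `x` and `h(θ)` are coprime: `h(θ) ≡ h(a_i)` mod `x`, and `h(a_i)` is an integer prime to `w`, and a power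
of `w` lies in the ideal `(x)`.  So `span {x, w^s} ^ m = span {x}` by EIS; `x ≠ 0`; take the fractional ideal of `span {x, w^s}` (a unit because nonzero, Dedekind) - see the proof of
`dat` in `Pool/Agent/D0H34/KG/Dat.lean` for this last step. -/
def S_IDL : Prop := ∀ (F : Type) [Field F] [NumberField F] (k m w s : ℕ) (a : Fin k → ℤ) (g : ℤ[X]) (θ : F),
  1 ≤ m → IsIntegral ℤ θ → aeval θ (pol a g ((w : ℤ) ^ (s * m))) = 0 → ∀ i : Fin k,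
  IsCoprime ((pol a g ((w : ℤ) ^ (s * m))).derivative.eval (a i)) (w : ℤ) → ∀ u : Fˣ, (u : F) = θ - (a i : F) →
  ∃ I : (FractionalIdeal (𝓞 F)⁰ F)ˣ, I ^ m = toPrincipalIdeal (𝓞 F) F u

end Pool.Agent.D0H34.KC
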