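import Pool.Agent.D0H34.KC.One

/-! Project KC: counting and assembly. -/

set_option autoImplicit false

open Polynomial NumberField nonZeroDivisors

namespace Pool.Agent.D0H34.KC

open Pool.Agent.D0H34.KG

/-- The fields counted: degree `n`, at most one real place, `|disc| ≤ X`, `(ℤ/m)^r ⊂ Cl`. -/
def Cnt (n m r : ℕ) (X : ℝ) : Set (IntermediateField ℚ (AlgebraicClosure ℚ)) :=
  {L | Module.finrank ℚ L = n ∧ ∃ _ : NumberField L, ((|NumberField.discr L| : ℤ) : ℝ) ≤ X ∧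
    InfinitePlace.nrRealPlaces L ≤ 1 ∧ HasCl L m r}

theorem cnt_finite (n m r : ℕ) (X : ℝ) : (Cnt n m r X).Finite := by
  have h := NumberField.finite_of_discr_bdd (A := AlgebraicClosure ℚ) ⌊X⌋₊
  refine (h.image (fun F : {F : IntermediateField ℚ (AlgebraicClosure ℚ) // FiniteDimensional ℚ F} =>
    (F : IntermediateField ℚ (AlgebraicClosure ℚ)))).subset ?_
  rintro L ⟨h1, h2, h3, -⟩
  refine ⟨⟨L, h2.to_finiteDimensional⟩, ?_, rfl⟩
  show |NumberField.discr L| ≤ ((⌊X⌋₊ : ℕ) : ℤ)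
  have h5 : ((|NumberField.discr L|).toNat : ℝ) ≤ X := by
    have : (((|NumberField.discr L|).toNat : ℤ)) = |NumberField.discr L| := Int.toNat_of_nonneg (abs_nonneg _)
    have h6 : (((|NumberField.discr L|).toNat : ℤ) : ℝ) = ((|NumberField.discr L| : ℤ) : ℝ) := by rw [this]
    have h7 : ((|NumberField.discr L|).toNat : ℝ) = (((|NumberField.discr L|).toNat : ℤ) : ℝ) := by norm_cast
    rw [h7, h6]
    exact h3
  have h8 := Nat.le_floor h5
  have h9 : (((|NumberField.discr L|).toNat : ℕ) : ℤ) ≤ ((⌊X⌋₊ : ℕ) : ℤ) := by exact_mod_cast h8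
  rwa [Int.toNat_of_nonneg (abs_nonneg _)] at h9

/-- the monic polynomial with given coefficients -/
noncomputable def mk (d : ℕ) (f : Fin d → ℤ) : ℤ[X] := X ^ d + ∑ i : Fin d, C (f i) * X ^ (i : ℕ)

theorem mk_monic (d : ℕ) (f : Fin d → ℤ) : (mk d f).Monic :=
  monic_X_pow_add (degree_sum_fin_lt f)

theorem mk_natDegree (d : ℕ) (f : Fin d → ℤ) : (mk d f).natDegree = d := by
  rw [mk, natDegree_add_eq_left_of_degree_lt (by rw [degree_X_pow]; exact degree_sum_fin_lt f), natDegree_X_pow]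

theorem mk_coeff (d : ℕ) (f : Fin d → ℤ) (j : Fin d) : (mk d f).coeff j = f j := by
  rw [mk, coeff_add, coeff_X_pow, if_neg (by omega), zero_add, finsetSum_coeff, Finset.sum_eq_single j]
  · simp
  · intro b _ hb
    rw [coeff_C_mul, coeff_X_pow, if_neg (fun h => hb (Fin.ext h.symm)), mul_zero]
  · intro h; exact absurd (Finset.mem_univ j) h

theorem count (hCLS : S_CLS) (hLOC : S_LOC) (hPLC : S_PLC) (hIDL : S_IDL) (hCPX : S_CPX) (hFIB : S_FIB)
    (n m r k w s M H K : ℕ) (a : Fin k → ℤ) (G : ℕ → ℤ) (hm : 2 ≤ m) (hk : k = (n + 1) / 2 + r) (hkn : k + 2 ≤ n)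
    (hw : w.Prime) (hM : 1 ≤ M)
    (hG : ∀ g : ℤ[X], g.Monic → g.natDegree = n - k → (∀ j < n - k, g.coeff j ≡ G j [ZMOD M]) →
      Good m w a (pol a g ((w : ℤ) ^ (s * m))))
    (hH : 1 ≤ H) (haH : ∀ i, |a i| ≤ H) (hc1 : (10 * H : ℤ) ^ n < (w : ℤ) ^ (s * m))
    (hc2 : (w : ℤ) ^ (s * m) ≤ (K * H : ℤ) ^ n) (X : ℝ)
    (hX : (n.factorial : ℝ) ^ 2 * (4 * K * H) ^ (n * (n - 1)) ≤ X) :
    ∏ j ∈ Finset.range (n - k), (H ^ (n - k - j) / M) ≤ (4 * (4 * K * H) + 1) ^ (n + 1) * (Cnt n m r X).ncard := by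
  classical
  obtain ⟨d, hd⟩ : ∃ d, d = n - k := ⟨_, rfl⟩
  rw [← hd] at hG ⊢
  obtain ⟨c, hc⟩ : ∃ c : ℤ, c = (w : ℤ) ^ (s * m) := ⟨_, rfl⟩
  -- the polynomials
  obtain ⟨T, hT⟩ : ∃ T : Fin d → ℕ, T = fun j : Fin d => H ^ (d - (j : ℕ)) / M := ⟨_, rfl⟩
  obtain ⟨gg, hgg⟩ : ∃ gg : ((j : Fin d) → Fin (T j)) → ℤ[X],
      gg = fun t => mk d (fun j => G j % (M : ℤ) + M * ((t j : ℕ) : ℤ)) := ⟨_, rfl⟩
  have hMZ : (0 : ℤ) < M := by exact_mod_cast hM
  have hg1 : ∀ t, (gg t).Monic := fun t => by rw [hgg]; exact mk_monic _ _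
  have hg2 : ∀ t, (gg t).natDegree = d := fun t => by rw [hgg]; exact mk_natDegree _ _
  have hg3 : ∀ t (j : Fin d), (gg t).coeff j = G j % (M : ℤ) + M * ((t j : ℕ) : ℤ) := fun t j => by
    rw [hgg]; exact mk_coeff _ _ _
  have hg4 : ∀ t, ∀ j < d, (gg t).coeff j ≡ G j [ZMOD M] := by
    intro t j hj
    have h1 := hg3 t ⟨j, hj⟩
    simp only at h1
    rw [h1]
    have h2 : G j % (M : ℤ) + M * ((t ⟨j, hj⟩ : ℕ) : ℤ) ≡ G j % (M : ℤ) + 0 [ZMOD M] :=
      Int.ModEq.add_left _ ((Int.modEq_zero_iff_dvd).2 (dvd_mul_right _ _))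
    rw [add_zero] at h2
    exact h2.trans (Int.mod_modEq _ _)
  have hg5 : ∀ t, ∀ j < d, 0 ≤ (gg t).coeff j ∧ (gg t).coeff j ≤ (H : ℤ) ^ (d - j) := by
    intro t j hj
    have h1 := hg3 t ⟨j, hj⟩
    simp only at h1
    rw [h1]
    have h2 := Int.emod_nonneg (G j) hMZ.ne'
    have h3 := Int.emod_lt_of_pos (G j) hMZ
    refine ⟨by positivity, ?_⟩
    have h4 : ((t ⟨j, hj⟩ : ℕ)) + 1 ≤ H ^ (d - j) / M := by
      have hTj : T ⟨j, hj⟩ = H ^ (d - j) / M := by rw [hT]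
      rw [← hTj]
      exact (t ⟨j, hj⟩).isLt
    have h5 : M * ((t ⟨j, hj⟩ : ℕ) + 1) ≤ H ^ (d - j) := by
      calc M * ((t ⟨j, hj⟩ : ℕ) + 1) ≤ M * (H ^ (d - j) / M) := Nat.mul_le_mul_left _ h4
        _ ≤ _ := Nat.mul_div_le _ _
    have h6 : (M : ℤ) * (((t ⟨j, hj⟩ : ℕ) : ℤ) + 1) ≤ (H : ℤ) ^ (d - j) := by exact_mod_cast h5
    linarith
  obtain ⟨ff, hff⟩ : ∃ ff : ((j : Fin d) → Fin (T j)) → ℤ[X], ff = fun t => pol a (gg t) c := ⟨_, rfl⟩
  have hf1 : ∀ t, (ff t).Monic ∧ (ff t).natDegree = n := fun t => by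
    rw [hff]
    exact pol_monic (by omega) a c (gg t) (hg1 t) (by rw [hg2 t, hd])
  have hroot : ∀ t, ∃ θ : AlgebraicClosure ℚ, aeval θ (ff t) = 0 := fun t =>
    IsAlgClosed.exists_aeval_eq_zero (AlgebraicClosure ℚ) (ff t) (by
      rw [degree_eq_natDegree (hf1 t).1.ne_zero, (hf1 t).2]
      exact_mod_cast (by omega : n ≠ 0))
  choose θ hθ using hroot
  have hcpx : ∀ t, (∀ x y : ℝ, aeval x (ff t) = 0 → aeval y (ff t) = 0 → x = y) ∧
      ∀ z : ℂ, aeval z (ff t) = 0 → ‖z‖ ≤ 4 * K * H := fun t => by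
    rw [hff]
    refine hCPX n k H K a c (gg t) (by omega) hH (hg1 t) (by rw [hg2 t, hd]) ?_ haH (by rw [hc]; exact hc1)
      (by rw [hc]; exact hc2)
    rw [← hd]
    exact hg5 t
  have hone := fun t => one hCLS hLOC hPLC hIDL n m r k w s a (gg t) (4 * K * H) hm hk hkn hw (hg1 t)
    (by rw [hg2 t, hd]) (hG _ (hg1 t) (hg2 t) (hg4 t))
    (by have := (hcpx t).1; rw [hff, hc] at this; exact this)
    (by have := (hcpx t).2; rw [hff, hc] at this; exact this)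
    (AlgebraicClosure ℚ) (θ t) (by have := hθ t; rw [hff, hc] at this; exact this)
  obtain ⟨LL, hLL⟩ : ∃ LL : ((j : Fin d) → Fin (T j)) → IntermediateField ℚ (AlgebraicClosure ℚ),
      LL = fun t => IntermediateField.adjoin ℚ {θ t} := ⟨_, rfl⟩
  have hmem : ∀ t, LL t ∈ Cnt n m r X := by
    intro t
    rw [hLL]
    obtain ⟨h1, h2, h3, h4, h5, h6, h7, h8⟩ := hone t
    exact ⟨h2, h1, h3.trans hX, h4, h6⟩
  -- `θ t` determines `t`
  have hinj : Function.Injective θ := by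
    intro t t' htt
    obtain ⟨-, -, -, -, -, -, h7, -⟩ := hone t
    obtain ⟨-, -, -, -, -, -, h7', -⟩ := hone t'
    rw [htt, h7'] at h7
    have h1 : (∏ i, (Polynomial.X - C (a i)) : ℤ[X]) * gg t' = (∏ i, (Polynomial.X - C (a i))) * gg t := by
      have := h7
      rw [pol, pol] at this
      exact add_right_cancel this
    have h2 : gg t' = gg t := mul_left_cancel₀ (monic_prod_of_monic _ _ fun i _ => monic_X_sub_C _).ne_zero h1
    funext j
    have h3 := hg3 t j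
    rw [← h2, hg3 t' j] at h3
    have h4 : (M : ℤ) * ((t' j : ℕ) : ℤ) = M * ((t j : ℕ) : ℤ) := add_left_cancel h3
    have h5 : ((t' j : ℕ) : ℤ) = ((t j : ℕ) : ℤ) := mul_left_cancel₀ hMZ.ne' h4
    exact Fin.ext (by exact_mod_cast h5.symm)
  -- the fibres
  have hfib : ∀ L ∈ (Finset.univ : Finset ((j : Fin d) → Fin (T j))).image LL,
      ((Finset.univ : Finset ((j : Fin d) → Fin (T j))).filter (fun t => LL t = L)).card ≤
        (4 * (4 * K * H) + 1) ^ (n + 1) := by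
    intro L hL
    obtain ⟨t0, -, ht0⟩ := Finset.mem_image.1 hL
    have hNF : ∃ _ : NumberField L, Fintype.card (InfinitePlace L) = (n + 1) / 2 := by
      rw [← ht0, hLL]
      obtain ⟨h1, h2, h3, h4, h5, h6, h7, h8⟩ := hone t0
      exact ⟨h1, h5⟩
    obtain ⟨hNF, hcard⟩ := hNF
    have hmemL : ∀ t, LL t = L → θ t ∈ L := by
      intro t ht
      rw [← ht, hLL]
      exact IntermediateField.mem_adjoin_simple_self ℚ (θ t)
    have hintL : ∀ t (ht : LL t = L), IsIntegral ℤ (⟨θ t, hmemL t ht⟩ : L) := by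
      intro t ht
      obtain ⟨-, -, -, -, -, -, -, h8⟩ := hone t
      have : IsIntegral ℤ (algebraMap L (AlgebraicClosure ℚ) ⟨θ t, hmemL t ht⟩) := h8
      exact (isIntegral_algebraMap_iff (algebraMap L (AlgebraicClosure ℚ)).injective).1 this
    obtain ⟨ψ, hψ⟩ : ∃ ψ : {t // LL t = L} → 𝓞 L, ∀ t, ((ψ t : L) : AlgebraicClosure ℚ) = θ t :=
      ⟨fun t => ⟨⟨θ t, hmemL t t.2⟩, hintL t t.2⟩, fun t => rfl⟩
    have hψi : Function.Injective ψ := by
      intro t t' h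
      have h1 : θ t = θ t' := by rw [← hψ t, ← hψ t', h]
      exact Subtype.ext (hinj h1)
    have h1 := hFIB L (4 * K * H) (Finset.univ.image ψ) (by
      intro x hx φ
      obtain ⟨t, -, rfl⟩ := Finset.mem_image.1 hx
      have h2 : aeval ((ψ t : L)) (ff t) = 0 := by
        have h3 := aeval_algebraMap_apply (AlgebraicClosure ℚ) (ψ t : L) (ff t)
        have h4 : algebraMap L (AlgebraicClosure ℚ) (ψ t : L) = θ t := hψ t
        rw [h4, hθ] at h3
        exact ((map_eq_zero_iff _ (algebraMap L (AlgebraicClosure ℚ)).injective).1 h3.symm)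
      have h3 : φ (aeval ((ψ t : L)) (ff t)) = aeval (φ (ψ t : L)) (ff t) := by
        rw [aeval_def, aeval_def, hom_eval₂]
        congr 1
        exact RingHom.ext_int _ _
      rw [h2, map_zero] at h3
      have h5 := (hcpx t).2 _ h3.symm
      push_cast
      exact h5)
    rw [Finset.card_image_of_injective _ hψi, Finset.card_univ, Fintype.card_subtype, hcard] at h1
    refine h1.trans (Nat.pow_le_pow_right (by omega) (by omega))
  have h1 := Finset.card_le_mul_card_image (Finset.univ : Finset ((j : Fin d) → Fin (T j))) _ hfib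
  have h2 : (Finset.univ : Finset ((j : Fin d) → Fin (T j))).card = ∏ j ∈ Finset.range d, (H ^ (d - j) / M) := by
    rw [Finset.card_univ, Fintype.card_pi, Finset.prod_range]
    refine Finset.prod_congr rfl fun j _ => ?_
    rw [Fintype.card_fin, hT]
  rw [h2] at h1
  refine h1.trans (Nat.mul_le_mul_left _ ?_)
  rw [← Set.ncard_coe_finset]
  refine Set.ncard_le_ncard ?_ (cnt_finite n m r X)
  intro L hL
  obtain ⟨t, -, rfl⟩ := Finset.mem_image.1 (Finset.mem_coe.1 hL)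
  exact hmem t

end Pool.Agent.D0H34.KC
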