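import Pool.Agent.D0H34.KC.Crt

/-! Project KC, second round: all congruence conditions together, for all `a ≡ α`. -/

set_option autoImplicit false

open Polynomial

namespace Pool.Agent.D0H34.KC

theorem crt2 (hPRM : S_PRM) (hGP : S_GP) (hGQ : S_GQ) (hGW : S_GW) (n k m : ℕ) (hm : 2 ≤ m) (hk : k + 2 ≤ n) :
    ∃ (w M : ℕ) (α : Fin k → ℤ), w.Prime ∧ 1 ≤ M ∧ ∀ a : Fin k → ℤ, (∀ i, a i ≡ α i [ZMOD M]) →
      ∀ s : ℕ, ∃ G : ℕ → ℤ, ∀ g : ℤ[X], g.Monic →
      g.natDegree = n - k → (∀ j < n - k, g.coeff j ≡ G j [ZMOD M]) →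
      Good m w a (pol a g ((w : ℤ) ^ (s * m))) := by
  obtain ⟨p, w, q, α, hp, hw, hq, hqi, hpw, hqpw, hwp, han', hap', haw', haww', haq', haq0', hchar'⟩ :=
    hPRM n k m hm (by omega) (by omega)
  -- the family of moduli
  obtain ⟨Mf, hMf⟩ : ∃ Mf : Option (Option (Fin k)) → ℕ, Mf = fun o => match o with
    | none => p ^ 2
    | some none => w
    | some (some i) => q i := ⟨_, rfl⟩
  have hM1 : Mf none = p ^ 2 := by rw [hMf]
  have hM2 : Mf (some none) = w := by rw [hMf]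
  have hM3 : ∀ i, Mf (some (some i)) = q i := by intro i; rw [hMf]
  have h0 : ∀ o, Mf o ≠ 0 := by
    rintro (_ | _ | i)
    · rw [hM1]; exact pow_ne_zero _ hp.ne_zero
    · rw [hM2]; exact hw.ne_zero
    · rw [hM3]; exact (hq i).ne_zero
  have hc : ∀ i j, i ≠ j → Nat.Coprime (Mf i) (Mf j) := by
    have c1 : Nat.Coprime p w := (Nat.coprime_primes hp hw).2 hpw
    have c2 : ∀ i, Nat.Coprime (q i) p := fun i => (Nat.coprime_primes (hq i) hp).2 (hqpw i).1
    have c3 : ∀ i, Nat.Coprime (q i) w := fun i => (Nat.coprime_primes (hq i) hw).2 (hqpw i).2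
    rintro (_ | _ | i) (_ | _ | j) hij
    · exact absurd rfl hij
    · rw [hM1, hM2]; exact c1.pow_left 2
    · rw [hM1, hM3]; exact (c2 j).symm.pow_left 2
    · rw [hM1, hM2]; exact (c1.pow_left 2).symm
    · exact absurd rfl hij
    · rw [hM2, hM3]; exact (c3 j).symm
    · rw [hM1, hM3]; exact ((c2 i).symm.pow_left 2).symm
    · rw [hM2, hM3]; exact c3 i
    · rw [hM3, hM3]
      exact (Nat.coprime_primes (hq i) (hq j)).2 (fun h => hij (by rw [hqi h]))
  refine ⟨w, ∏ o, Mf o, α, hw, Nat.one_le_iff_ne_zero.2 (Finset.prod_ne_zero_iff.2 fun o _ => h0 o),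
    fun a ha s => ?_⟩
  have hdvd : ∀ o, ((Mf o : ℕ) : ℤ) ∣ ((∏ o, Mf o : ℕ) : ℤ) := fun o =>
    Int.natCast_dvd_natCast.2 (Finset.dvd_prod_of_mem Mf (Finset.mem_univ o))
  have tp : ∀ i, a i ≡ α i [ZMOD p] := fun i => by
    have h1 : ((p : ℕ) : ℤ) ∣ ((∏ o, Mf o : ℕ) : ℤ) := by
      have := hdvd none
      rw [hM1] at this
      exact (Dvd.intro_left ((p : ℤ) ^ 1) (by push_cast; ring)).trans this
    exact (ha i).of_dvd h1
  have tw : ∀ i, a i ≡ α i [ZMOD w] := fun i => by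
    have := hdvd (some none)
    rw [hM2] at this
    exact (ha i).of_dvd this
  have tq : ∀ i j, a i ≡ α i [ZMOD q j] := fun i j => by
    have := hdvd (some (some j))
    rw [hM3] at this
    exact (ha i).of_dvd this
  have tr : ∀ (N : ℤ) (x y : ℤ), x ≡ y [ZMOD N] → ¬ N ∣ y → ¬ N ∣ x := by
    intro N x y hxy hy hx
    exact hy ((Int.modEq_zero_iff_dvd).1 (hxy.symm.trans ((Int.modEq_zero_iff_dvd).2 hx)))
  have han : ∀ i, a i ^ n ≡ 1 [ZMOD p] := fun i => ((tp i).pow n).trans (han' i)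
  have hap : ∀ i j, i ≠ j → ¬ (p : ℤ) ∣ a i - a j := fun i j hij =>
    tr _ _ _ ((tp i).sub (tp j)) (hap' i j hij)
  have haw : ∀ i, ¬ (w : ℤ) ∣ a i := fun i => tr _ _ _ (tw i) (haw' i)
  have haww : ∀ i j, i ≠ j → ¬ (w : ℤ) ∣ a i - a j := fun i j hij =>
    tr _ _ _ ((tw i).sub (tw j)) (haww' i j hij)
  have haq : ∀ i j, i ≠ j → a j ≡ -1 [ZMOD q i] := fun i j hij => (tq j i).trans (haq' i j hij)
  have haq0 : ∀ i, ¬ (q i : ℤ) ∣ a i := fun i => tr _ _ _ (tq i i) (haq0' i)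
  have hchar : ∀ (i : Fin k) [Fact (q i).Prime] (ℓ : ℕ), ℓ.Prime → ℓ ∣ m → ∀ (e : ℤ) (z : ZMod (q i)), z ≠ 0 →
      ((-a i : ℤ) : ZMod (q i)) ^ e = z ^ ℓ → (ℓ : ℤ) ∣ e := by
    intro i _ ℓ hℓ hℓm e z hz he
    refine hchar' i ℓ hℓ hℓm e z hz ?_
    have h1 : ((a i : ℤ) : ZMod (q i)) = ((α i : ℤ) : ZMod (q i)) :=
      (ZMod.intCast_eq_intCast_iff _ _ _).2 (tq i i)
    rw [Int.cast_neg, ← h1, ← Int.cast_neg]
    exact he
  have hcp : ((w : ℤ) ^ (s * m)) ≡ 1 [ZMOD p] := by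
    have := hwp.pow (s * m)
    rwa [one_pow] at this
  obtain ⟨Gp, hGp⟩ := hGP n k (n - k) p a ((w : ℤ) ^ (s * m)) hp (by omega) (by omega) han hap hcp
  have hGq' : ∀ i, ∃ G : ℕ → ℤ, ∀ g : ℤ[X], g.Monic → g.natDegree = n - k →
      (∀ j < n - k, g.coeff j ≡ G j [ZMOD (q i : ℕ)]) →
      ((q i : ℕ) : ℤ) ∣ (pol a g ((w : ℤ) ^ (s * m))).eval 0 ∧
        ¬ ((q i : ℕ) : ℤ) ∣ (pol a g ((w : ℤ) ^ (s * m))).derivative.eval 0 := by
    intro i
    refine hGQ k (n - k) (q i) a _ (hq i) (by omega) (fun j => ?_)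
    by_cases hij : i = j
    · subst hij
      exact haq0 i
    · intro hd
      have h1 := haq i j hij
      have h2 : ((q i : ℕ) : ℤ) ∣ -1 - a j := (Int.modEq_iff_dvd).1 h1
      have h3 : ((q i : ℕ) : ℤ) ∣ 1 := by
        have := (dvd_add h2 hd)
        rw [show -1 - a j + a j = -1 by ring] at this
        exact (dvd_neg).1 this
      have h4 := Int.eq_one_of_dvd_one (by positivity) h3
      exact (hq i).one_lt.ne' (by exact_mod_cast h4)
  choose Gq hGq using hGq'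
  have hex : ∀ j : ℕ, ∃ x : ℤ, ∀ o, x ≡ (match o with
    | none => Gp j
    | some none => 0
    | some (some i) => Gq i j : ℤ) [ZMOD Mf o] := fun j => crt_int _ Mf h0 hc
  choose G hG using hex
  refine ⟨G, fun g hg hd hco => ?_⟩
  have hco' : ∀ o, ∀ j < n - k, g.coeff j ≡ G j [ZMOD Mf o] := fun o j hj => (hco j hj).of_dvd (hdvd o)
  have e1 : ∀ j < n - k, g.coeff j ≡ Gp j [ZMOD (p : ℤ) ^ 2] := by
    intro j hj
    have := (hco' none j hj).trans (hG j none)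
    rw [hM1] at this
    push_cast at this
    exact this
  have e2 : ∀ j < n - k, (w : ℤ) ∣ g.coeff j := by
    intro j hj
    have := (hco' (some none) j hj).trans (hG j (some none))
    rw [hM2] at this
    exact (Int.modEq_zero_iff_dvd).1 this
  have e3 : ∀ i, ∀ j < n - k, g.coeff j ≡ Gq i j [ZMOD (q i : ℕ)] := by
    intro i j hj
    have := (hco' (some (some i)) j hj).trans (hG j (some (some i)))
    rw [hM3] at this
    exact this
  refine ⟨hGp g hg hd e1, fun i => ?_, fun i => ⟨q i, hq i, (hGq i g hg hd (e3 i)).1, (hGq i g hg hd (e3 i)).2,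
    fun j => ?_, fun j hij => haq i j hij, fun {_} ℓ hℓ hℓm e z hz he => hchar i ℓ hℓ hℓm e z hz he⟩⟩
  · have h1 := hGW k (n - k) w a ((w : ℤ) ^ (s * m)) hw haw haww g hg hd e2 i
    exact (((Nat.prime_iff_prime_int.1 hw).coprime_iff_not_dvd).2 h1).symm
  · by_cases hij : i = j
    · subst hij
      exact haq0 i
    · intro hd'
      have h1 := haq i j hij
      have h2 : ((q i : ℕ) : ℤ) ∣ -1 - a j := (Int.modEq_iff_dvd).1 h1
      have h3 : ((q i : ℕ) : ℤ) ∣ 1 := by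
        have := (dvd_add h2 hd')
        rw [show -1 - a j + a j = -1 by ring] at this
        exact (dvd_neg).1 this
      have h4 := Int.eq_one_of_dvd_one (by positivity) h3
      exact (hq i).one_lt.ne' (by exact_mod_cast h4)

end Pool.Agent.D0H34.KC
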