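import Pool.Agent.D0H34.KC.Asm
import Pool.Agent.D0H34.KC.Crt2

/-! Project KC: counting, second round (the `a_i` vary, and an additional property of the fields). -/

set_option autoImplicit false

open Polynomial NumberField nonZeroDivisors

namespace Pool.Agent.D0H34.KC

open Pool.Agent.D0H34.KG

/-- `Cnt` with an additional property -/
def CntQ (Q : IntermediateField ℚ (AlgebraicClosure ℚ) → Prop) (n m r : ℕ) (X : ℝ) :
    Set (IntermediateField ℚ (AlgebraicClosure ℚ)) := {L | L ∈ Cnt n m r X ∧ Q L}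

theorem cntQ_finite (Q : IntermediateField ℚ (AlgebraicClosure ℚ) → Prop) (n m r : ℕ) (X : ℝ) :
    (CntQ Q n m r X).Finite := (cnt_finite n m r X).subset fun _ h => h.1

theorem count2 (hCLS : S_CLS) (hLOC : S_LOC) (hPLC : S_PLC) (hIDL : S_IDL) (hCPX : S_CPX) (hFIB : S_FIB)
    (n m r k w s M H K : ℕ) (α : Fin k → ℤ) (Q : IntermediateField ℚ (AlgebraicClosure ℚ) → Prop)
    (hm : 2 ≤ m) (hk : k = (n + 1) / 2 + r) (hkn : k + 2 ≤ n) (hw : w.Prime) (hM : 1 ≤ M)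
    (hG : ∀ a : Fin k → ℤ, (∀ i, a i ≡ α i [ZMOD M]) → ∃ G : ℕ → ℤ,
      ∀ g : ℤ[X], g.Monic → g.natDegree = n - k → (∀ j < n - k, g.coeff j ≡ G j [ZMOD M]) →
      Good m w a (pol a g ((w : ℤ) ^ (s * m))) ∧ ∀ θ : AlgebraicClosure ℚ,
        aeval θ (pol a g ((w : ℤ) ^ (s * m))) = 0 → Q (IntermediateField.adjoin ℚ {θ}))
    (hH : 1 ≤ H) (haH : ∀ i, 2 * |α i| ≤ H) (hc1 : (10 * H : ℤ) ^ n < (w : ℤ) ^ (s * m))
    (hc2 : (w : ℤ) ^ (s * m) ≤ (K * H : ℤ) ^ n) (X : ℝ)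
    (hX : (n.factorial : ℝ) ^ 2 * (4 * K * H) ^ (n * (n - 1)) ≤ X) :
    (H / (2 * M)) ^ k * ∏ j ∈ Finset.range (n - k), (H ^ (n - k - j) / M) ≤
      (n ^ k * (4 * (4 * K * H) + 1) ^ (n + 1)) * (CntQ Q n m r X).ncard := by
  classical
  obtain ⟨d, hd⟩ : ∃ d, d = n - k := ⟨_, rfl⟩
  rw [← hd] at hG ⊢
  obtain ⟨c, hc⟩ : ∃ c : ℤ, c = (w : ℤ) ^ (s * m) := ⟨_, rfl⟩
  have hMZ : (0 : ℤ) < M := by exact_mod_cast hM
  -- the numbers
  obtain ⟨aa, haa⟩ : ∃ aa : (Fin k → Fin (H / (2 * M))) → Fin k → ℤ, aa = fun b i => α i + M * ((b i : ℕ) : ℤ) :=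
    ⟨_, rfl⟩
  have haa1 : ∀ b i, aa b i ≡ α i [ZMOD M] := by
    intro b i
    rw [haa]
    have h2 : α i + (M : ℤ) * ((b i : ℕ) : ℤ) ≡ α i + 0 [ZMOD M] :=
      Int.ModEq.add_left _ ((Int.modEq_zero_iff_dvd).2 (dvd_mul_right _ _))
    rwa [add_zero] at h2
  have haa2 : ∀ b i, |aa b i| ≤ H := by
    intro b i
    rw [haa]
    have h1 : 2 * M * (b i : ℕ) ≤ H := by
      calc 2 * M * (b i : ℕ) ≤ 2 * M * (H / (2 * M)) := Nat.mul_le_mul_left _ (b i).isLt.le
        _ ≤ H := Nat.mul_div_le _ _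
    have h2 : 2 * (M : ℤ) * ((b i : ℕ) : ℤ) ≤ H := by exact_mod_cast h1
    have h3 := haH i
    have h4 : (0 : ℤ) ≤ (M : ℤ) * ((b i : ℕ) : ℤ) := by positivity
    have h5 := abs_le.1 (le_refl |α i|)
    rw [abs_le]
    constructor
    · show -(H : ℤ) ≤ α i + M * ((b i : ℕ) : ℤ)
      nlinarith [h5.1, abs_nonneg (α i)]
    · show α i + M * ((b i : ℕ) : ℤ) ≤ H
      nlinarith [h5.2]
  have haa3 : Function.Injective aa := by
    intro b b' h
    funext i
    have h1 : aa b i = aa b' i := by rw [h]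
    rw [haa] at h1
    have h2 : (M : ℤ) * ((b i : ℕ) : ℤ) = M * ((b' i : ℕ) : ℤ) := add_left_cancel h1
    have h3 : ((b i : ℕ) : ℤ) = ((b' i : ℕ) : ℤ) := mul_left_cancel₀ hMZ.ne' h2
    exact Fin.ext (by exact_mod_cast h3)
  have hGb : ∀ b, ∃ G : ℕ → ℤ, ∀ g : ℤ[X], g.Monic → g.natDegree = d → (∀ j < d, g.coeff j ≡ G j [ZMOD M]) →
      Good m w (aa b) (pol (aa b) g ((w : ℤ) ^ (s * m))) ∧ ∀ θ : AlgebraicClosure ℚ,
        aeval θ (pol (aa b) g ((w : ℤ) ^ (s * m))) = 0 → Q (IntermediateField.adjoin ℚ {θ}) :=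
    fun b => hG (aa b) (haa1 b)
  choose G hG' using hGb
  -- the polynomials
  obtain ⟨T, hT⟩ : ∃ T : Fin d → ℕ, T = fun j : Fin d => H ^ (d - (j : ℕ)) / M := ⟨_, rfl⟩
  obtain ⟨gg, hgg⟩ : ∃ gg : ((Fin k → Fin (H / (2 * M))) × ((j : Fin d) → Fin (T j))) → ℤ[X],
      gg = fun x => mk d (fun j => G x.1 j % (M : ℤ) + M * ((x.2 j : ℕ) : ℤ)) := ⟨_, rfl⟩
  have hg1 : ∀ x, (gg x).Monic := fun x => by rw [hgg]; exact mk_monic _ _
  have hg2 : ∀ x, (gg x).natDegree = d := fun x => by rw [hgg]; exact mk_natDegree _ _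
  have hg3 : ∀ x (j : Fin d), (gg x).coeff j = G x.1 j % (M : ℤ) + M * ((x.2 j : ℕ) : ℤ) := fun x j => by
    rw [hgg]; exact mk_coeff _ _ _
  have hg4 : ∀ x, ∀ j < d, (gg x).coeff j ≡ G x.1 j [ZMOD M] := by
    intro x j hj
    have h1 := hg3 x ⟨j, hj⟩
    simp only at h1
    rw [h1]
    have h2 : G x.1 j % (M : ℤ) + M * ((x.2 ⟨j, hj⟩ : ℕ) : ℤ) ≡ G x.1 j % (M : ℤ) + 0 [ZMOD M] :=
      Int.ModEq.add_left _ ((Int.modEq_zero_iff_dvd).2 (dvd_mul_right _ _))
    rw [add_zero] at h2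
    exact h2.trans (Int.mod_modEq _ _)
  have hg5 : ∀ x, ∀ j < d, 0 ≤ (gg x).coeff j ∧ (gg x).coeff j ≤ (H : ℤ) ^ (d - j) := by
    intro x j hj
    have h1 := hg3 x ⟨j, hj⟩
    simp only at h1
    rw [h1]
    have h2 := Int.emod_nonneg (G x.1 j) hMZ.ne'
    have h3 := Int.emod_lt_of_pos (G x.1 j) hMZ
    refine ⟨by positivity, ?_⟩
    have h4 : ((x.2 ⟨j, hj⟩ : ℕ)) + 1 ≤ H ^ (d - j) / M := by
      have hTj : T ⟨j, hj⟩ = H ^ (d - j) / M := by rw [hT]
      rw [← hTj]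
      exact (x.2 ⟨j, hj⟩).isLt
    have h5 : M * ((x.2 ⟨j, hj⟩ : ℕ) + 1) ≤ H ^ (d - j) := by
      calc M * ((x.2 ⟨j, hj⟩ : ℕ) + 1) ≤ M * (H ^ (d - j) / M) := Nat.mul_le_mul_left _ h4
        _ ≤ _ := Nat.mul_div_le _ _
    have h6 : (M : ℤ) * (((x.2 ⟨j, hj⟩ : ℕ) : ℤ) + 1) ≤ (H : ℤ) ^ (d - j) := by exact_mod_cast h5
    linarith
  obtain ⟨ff, hff⟩ : ∃ ff : ((Fin k → Fin (H / (2 * M))) × ((j : Fin d) → Fin (T j))) → ℤ[X],
      ff = fun x => pol (aa x.1) (gg x) c := ⟨_, rfl⟩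
  have hf1 : ∀ x, (ff x).Monic ∧ (ff x).natDegree = n := fun x => by
    rw [hff]
    exact pol_monic (by omega) (aa x.1) c (gg x) (hg1 x) (by rw [hg2 x, hd])
  have hroot : ∀ x, ∃ θ : AlgebraicClosure ℚ, aeval θ (ff x) = 0 := fun x =>
    IsAlgClosed.exists_aeval_eq_zero (AlgebraicClosure ℚ) (ff x) (by
      rw [degree_eq_natDegree (hf1 x).1.ne_zero, (hf1 x).2]
      exact_mod_cast (by omega : n ≠ 0))
  choose θ hθ using hroot
  have hcpx : ∀ x, (∀ u v : ℝ, aeval u (ff x) = 0 → aeval v (ff x) = 0 → u = v) ∧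
      ∀ z : ℂ, aeval z (ff x) = 0 → ‖z‖ ≤ 4 * K * H := fun x => by
    rw [hff]
    refine hCPX n k H K (aa x.1) c (gg x) (by omega) hH (hg1 x) (by rw [hg2 x, hd]) ?_ (haa2 x.1)
      (by rw [hc]; exact hc1) (by rw [hc]; exact hc2)
    rw [← hd]
    exact hg5 x
  have hQ : ∀ x, Q (IntermediateField.adjoin ℚ {θ x}) := fun x =>
    (hG' x.1 _ (hg1 x) (hg2 x) (hg4 x)).2 (θ x) (by have := hθ x; rw [hff, hc] at this; exact this)
  have hone := fun x => one hCLS hLOC hPLC hIDL n m r k w s (aa x.1) (gg x) (4 * K * H) hm hk hkn hw (hg1 x)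
    (by rw [hg2 x, hd]) (hG' x.1 _ (hg1 x) (hg2 x) (hg4 x)).1
    (by have := (hcpx x).1; rw [hff, hc] at this; exact this)
    (by have := (hcpx x).2; rw [hff, hc] at this; exact this)
    (AlgebraicClosure ℚ) (θ x) (by have := hθ x; rw [hff, hc] at this; exact this)
  obtain ⟨LL, hLL⟩ : ∃ LL : ((Fin k → Fin (H / (2 * M))) × ((j : Fin d) → Fin (T j))) →
      IntermediateField ℚ (AlgebraicClosure ℚ), LL = fun x => IntermediateField.adjoin ℚ {θ x} := ⟨_, rfl⟩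
  have hmem : ∀ x, LL x ∈ CntQ Q n m r X := by
    intro x
    rw [hLL]
    obtain ⟨h1, h2, h3, h4, h5, h6, h7, h8⟩ := hone x
    exact ⟨⟨h2, h1, h3.trans hX, h4, h6⟩, hQ x⟩
  -- `θ x` determines the polynomial
  have hfθ : ∀ x x', θ x = θ x' → ff x = ff x' := by
    intro x x' hxx
    obtain ⟨-, -, -, -, -, -, h7, -⟩ := hone x
    obtain ⟨-, -, -, -, -, -, h7', -⟩ := hone x'
    rw [hxx, h7'] at h7
    rw [hff, hc]
    exact h7.symm
  -- the polynomial and the numbers determine `x`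
  have hinj : ∀ x x', θ x = θ x' → aa x.1 = aa x'.1 → x = x' := by
    intro x x' hxx haxx
    have hb : x.1 = x'.1 := haa3 haxx
    have h7 := hfθ x x' hxx
    rw [hff] at h7
    simp only at h7
    rw [haxx] at h7
    have h1 : (∏ i, (Polynomial.X - C (aa x'.1 i)) : ℤ[X]) * gg x = (∏ i, (Polynomial.X - C (aa x'.1 i))) * gg x' := by
      rw [pol, pol] at h7
      exact add_right_cancel h7
    have h2 : gg x = gg x' := mul_left_cancel₀ (monic_prod_of_monic _ _ fun i _ => monic_X_sub_C _).ne_zero h1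
    refine Prod.ext hb ?_
    funext j
    have h3 := hg3 x j
    rw [h2, hg3 x' j, hb] at h3
    have h4 : (M : ℤ) * ((x'.2 j : ℕ) : ℤ) = M * ((x.2 j : ℕ) : ℤ) := add_left_cancel h3
    have h5 : ((x'.2 j : ℕ) : ℤ) = ((x.2 j : ℕ) : ℤ) := mul_left_cancel₀ hMZ.ne' h4
    exact Fin.ext (by exact_mod_cast h5.symm)
  -- the fibres
  have hfib : ∀ L ∈ (Finset.univ : Finset ((Fin k → Fin (H / (2 * M))) × ((j : Fin d) → Fin (T j)))).image LL,
      ((Finset.univ : Finset ((Fin k → Fin (H / (2 * M))) × ((j : Fin d) → Fin (T j)))).filter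
        (fun x => LL x = L)).card ≤ n ^ k * (4 * (4 * K * H) + 1) ^ (n + 1) := by
    intro L hL
    obtain ⟨t0, -, ht0⟩ := Finset.mem_image.1 hL
    have hNF : ∃ _ : NumberField L, Fintype.card (InfinitePlace L) = (n + 1) / 2 := by
      rw [← ht0, hLL]
      obtain ⟨h1, h2, h3, h4, h5, h6, h7, h8⟩ := hone t0
      exact ⟨h1, h5⟩
    obtain ⟨hNF, hcard⟩ := hNF
    have hmemL : ∀ x, LL x = L → θ x ∈ L := by
      intro x hx
      rw [← hx, hLL]
      exact IntermediateField.mem_adjoin_simple_self ℚ (θ x)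
    have hintL : ∀ x (hx : LL x = L), IsIntegral ℤ (⟨θ x, hmemL x hx⟩ : L) := by
      intro x hx
      obtain ⟨-, -, -, -, -, -, -, h8⟩ := hone x
      have : IsIntegral ℤ (algebraMap L (AlgebraicClosure ℚ) ⟨θ x, hmemL x hx⟩) := h8
      exact (isIntegral_algebraMap_iff (algebraMap L (AlgebraicClosure ℚ)).injective).1 this
    obtain ⟨ψ, hψ⟩ : ∃ ψ : {x // LL x = L} → 𝓞 L, ∀ x, ((ψ x : L) : AlgebraicClosure ℚ) = θ x :=
      ⟨fun x => ⟨⟨θ x, hmemL x x.2⟩, hintL x x.2⟩, fun x => rfl⟩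
    have h1 := hFIB L (4 * K * H) (Finset.univ.image ψ) (by
      intro x hx φ
      obtain ⟨t, -, rfl⟩ := Finset.mem_image.1 hx
      have h2 : aeval ((ψ t : L)) (ff t) = 0 := by
        have h3 := aeval_algebraMap_apply (AlgebraicClosure ℚ) (ψ t : L) (ff t)
        have h4 : algebraMap L (AlgebraicClosure ℚ) (ψ t : L) = θ t := hψ t
        rw [h4, hθ] at h3
        exact ((map_eq_zero_iff _ (algebraMap L (AlgebraicClosure ℚ)).injective).1 h3.symm)
      have h3 : φ (aeval ((ψ t : L)) (ff t)) = aeval (φ (ψ t : L)) (ff t) := by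
        rw [aeval_def, aeval_def, hom_eval₂]
        congr 1
        exact RingHom.ext_int _ _
      rw [h2, map_zero] at h3
      have h5 := (hcpx t).2 _ h3.symm
      push_cast
      exact h5)
    rw [hcard] at h1
    have h1' : (Finset.univ.image ψ).card ≤ (4 * (4 * K * H) + 1) ^ (n + 1) :=
      h1.trans (Nat.pow_le_pow_right (by omega) (by omega))
    have h2 := Finset.card_le_mul_card_image (Finset.univ : Finset {x // LL x = L}) (f := ψ) (n ^ k) (by
      intro y hy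
      obtain ⟨x0, -, rfl⟩ := Finset.mem_image.1 hy
      -- the integral roots of `f - c`
      obtain ⟨R, hR⟩ : ∃ R : Finset ℤ, R = (ff x0 - C c).roots.toFinset := ⟨_, rfl⟩
      have hRc : R.card ≤ n := by
        rw [hR]
        refine (Multiset.toFinset_card_le _).trans ((card_roots' _).trans ?_)
        rw [natDegree_sub_C, (hf1 x0).2]
      have hne : ff (x0 : (Fin k → Fin (H / (2 * M))) × ((j : Fin d) → Fin (T j))) - C c ≠ 0 := by
        intro h0
        have h3 := (hf1 x0).2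
        rw [sub_eq_zero.1 h0, natDegree_C] at h3
        omega
      have h3 : ((Finset.univ : Finset {x // LL x = L}).filter (fun x => ψ x = ψ x0)).card ≤
          (Fintype.piFinset (fun _ : Fin k => R)).card := by
        refine Finset.card_le_card_of_injOn (fun x => aa (x : (Fin k → Fin (H / (2 * M))) × ((j : Fin d) → Fin (T j))).1) ?_ ?_
        · intro x hx
          have hx' : ψ x = ψ x0 := (Finset.mem_filter.1 (Finset.mem_coe.1 hx)).2
          have hxθ : θ x = θ x0 := by rw [← hψ x, ← hψ x0, hx']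
          refine Finset.mem_coe.2 (Fintype.mem_piFinset.2 fun i => ?_)
          rw [hR, Multiset.mem_toFinset, mem_roots hne, IsRoot.def, ← hfθ x x0 hxθ, hff]
          simp only [pol, add_sub_cancel_right, eval_mul, eval_prod]
          rw [Finset.prod_eq_zero (Finset.mem_univ i) (by simp), zero_mul]
        · intro x hx x' hx' hxx
          have e1 : ψ x = ψ x0 := (Finset.mem_filter.1 (Finset.mem_coe.1 hx)).2
          have e2 : ψ x' = ψ x0 := (Finset.mem_filter.1 (Finset.mem_coe.1 hx')).2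
          have e3 : θ x = θ x' := by rw [← hψ x, ← hψ x', e1, e2]
          exact Subtype.ext (hinj _ _ e3 hxx)
      refine h3.trans ?_
      rw [Fintype.card_piFinset_const]
      exact Nat.pow_le_pow_left hRc k)
    rw [Finset.card_univ, Fintype.card_subtype] at h2
    exact h2.trans (Nat.mul_le_mul_left _ h1')
  have h1 := Finset.card_le_mul_card_image
    (Finset.univ : Finset ((Fin k → Fin (H / (2 * M))) × ((j : Fin d) → Fin (T j)))) _ hfib
  have h2 : (Finset.univ : Finset ((Fin k → Fin (H / (2 * M))) × ((j : Fin d) → Fin (T j)))).card =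
      (H / (2 * M)) ^ k * ∏ j ∈ Finset.range d, (H ^ (d - j) / M) := by
    rw [Finset.card_univ, Fintype.card_prod, Fintype.card_pi, Fintype.card_pi, Finset.prod_range]
    congr 1
    · simp
    · refine Finset.prod_congr rfl fun j _ => ?_
      rw [Fintype.card_fin, hT]
  rw [h2] at h1
  refine h1.trans (Nat.mul_le_mul_left _ ?_)
  rw [← Set.ncard_coe_finset]
  refine Set.ncard_le_ncard ?_ (cntQ_finite Q n m r X)
  intro L hL
  obtain ⟨t, -, rfl⟩ := Finset.mem_image.1 (Finset.mem_coe.1 hL)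
  exact hmem t

end Pool.Agent.D0H34.KC
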