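import Pool.Agent.D0H34.KC.Stm

/-!
# Project KC, third round: Galois group `S_n`

The polynomials `f` get two more local conditions: `f ≡ x^(n-1)(x - 1)` modulo `p₂`, `f ≡ x²(x^(n-2) - 1)` modulo `p₃`, and `f(0)` is exactly divisible by
`p₂` and by `p₃`. The first makes the group doubly transitive (`f/(x - θ)` is an Eisenstein polynomial over `ℚ_[p₂]`), the second gives a transposition.
Modules: SPL, PRM3, G2, EP, TT, SW (independent of each other, except that the theorems may use the statements named).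
-/

set_option autoImplicit false

open Polynomial NumberField

namespace Pool.Agent.D0H34.KC

/-- **SPL** (40 min). A monic integral polynomial splits modulo infinitely many primes.

PROOF. `E` the splitting field of `P` over `ℚ`, `β` an integral primitive element (`Field.exists_primitive_element`, times an integer), `μ = minpoly ℤ β`.  The roots `ρ_i` of `P` in `E` are `R_i(β)/D` with `R_i ∈ ℤ[x]`
and one `D ≥ 1`.  There are infinitely many primes dividing some value `μ(j)`, `j ∈ ℤ` (classical: if only finitely many primes `p_1..p_s` occur, look at `μ(μ(0) p_1 ⋯ p_s y)/μ(0)`, resp. `μ(0) = 0` trivial;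
the pool or Mathlib may have it).  Take such a `p > B, D`.  The ring homomorphism `ℤ[x]/(μ) → ZMod p`, `x ↦ j`, extends to `ℤ[β][1/D]`
(`ℤ[β] ≅ ℤ[x]/(μ)`, `μ` monic irreducible).  In `ℤ[β][1/D]` (a subring of `E`) `P = ∏ (x - ρ_i)`; apply the homomorphism.  (Other way: `𝓞 E` and a prime ideal of degree one; the pool has several versions
of the existence of infinitely many primes `p` with a ring homomorphism `𝓞 E → ZMod p`: then it is immediate because the `ρ_i` lie in `𝓞 E`.) -/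
def S_SPL : Prop := ∀ (P : ℤ[X]) (B : ℕ), P.Monic →
  ∃ p : ℕ, p.Prime ∧ B < p ∧ (P.map (Int.castRingHom (ZMod p))).Splits

/-- **PRM3** (40 min; adapt `Pool/Agent/D0H70/KC/Prm.lean`).  As `S_PRM`, with two more primes.

PROOF. `p` as in `S_PRM`; `p₂ > n, p` with `x^n - x^(n-1) - 1` split modulo `p₂` (`S_SPL`), `p₃ > n, p₂` with `x^n - x^2 - 1` split modulo `p₃`; `q_i > p₃`.  `a_i ≡` the `i`-th root (`i < k`) of these polynomials modulo `p₂`, `p₃`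
(Chinese remainder theorem with the other conditions of `S_PRM`); `g₂`, `g₃` lifts of the products of the other linear factors (monic lifts of degree `n - k`; e.g. `∏ (x - integer)` ).  `w ≡ 1` modulo `p p₂ p₃`. -/
def S_PRM3 : Prop := ∀ (n k m : ℕ), 2 ≤ m → k ≤ n → 3 ≤ n →
  ∃ (p p₂ p₃ w : ℕ) (q : Fin k → ℕ) (a : Fin k → ℤ) (g₂ g₃ R₂ R₃ : ℤ[X]),
    (p.Prime ∧ p₂.Prime ∧ p₃.Prime ∧ w.Prime ∧ ∀ i, (q i).Prime) ∧
    Function.Injective q ∧ (p ≠ p₂ ∧ p ≠ p₃ ∧ p₂ ≠ p₃ ∧ p ≠ w ∧ p₂ ≠ w ∧ p₃ ≠ w) ∧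
    (∀ i, q i ≠ p ∧ q i ≠ p₂ ∧ q i ≠ p₃ ∧ q i ≠ w) ∧
    ((w : ℤ) ≡ 1 [ZMOD p] ∧ (w : ℤ) ≡ 1 [ZMOD p₂] ∧ (w : ℤ) ≡ 1 [ZMOD p₃]) ∧
    (∀ i, a i ^ n ≡ 1 [ZMOD p]) ∧ (∀ i j, i ≠ j → ¬ (p : ℤ) ∣ a i - a j) ∧
    (∀ i, ¬ (w : ℤ) ∣ a i) ∧ (∀ i j, i ≠ j → ¬ (w : ℤ) ∣ a i - a j) ∧
    (∀ i j, i ≠ j → a j ≡ -1 [ZMOD q i]) ∧ (∀ i, ¬ (q i : ℤ) ∣ a i) ∧
    (∀ (i : Fin k) [Fact (q i).Prime] (ℓ : ℕ), ℓ.Prime → ℓ ∣ m → ∀ (e : ℤ) (z : ZMod (q i)), z ≠ 0 →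
      ((-a i : ℤ) : ZMod (q i)) ^ e = z ^ ℓ → (ℓ : ℤ) ∣ e) ∧
    n < p₃ ∧ g₂.Monic ∧ g₂.natDegree = n - k ∧ g₃.Monic ∧ g₃.natDegree = n - k ∧
    (∏ i, (X - C (a i))) * g₂ = X ^ n - X ^ (n - 1) - 1 + C (p₂ : ℤ) * R₂ ∧
    (∏ i, (X - C (a i))) * g₃ = X ^ n - X ^ 2 - 1 + C (p₃ : ℤ) * R₃

/-- **G2** (20 min; as `Pool/Agent/D0H50/KC/Gp.lean`). `G j = g₀.coeff j` for `j ≥ 1`, `G 0 = g₀.coeff 0 + p t` with `A(0) G_0 + c ≡ p` modulo `p^2`
(`A(0) = ∏ (-a_i)` is prime to `p` because `A(0) g₀(0) ≡ -1`). -/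
def S_G2 : Prop := ∀ (n k d p : ℕ) (a : Fin k → ℤ) (c : ℤ) (F g₀ R : ℤ[X]), p.Prime → k + d = n → 1 ≤ d →
  (p : ℤ) ∣ F.eval 0 → g₀.Monic → g₀.natDegree = d →
  (∏ i, (X - C (a i))) * g₀ = F - 1 + C (p : ℤ) * R → c ≡ 1 [ZMOD p] →
  ∃ G : ℕ → ℤ, ∀ g : ℤ[X], g.Monic → g.natDegree = d → (∀ j < d, g.coeff j ≡ G j [ZMOD (p : ℤ) ^ 2]) →
    (∃ R' : ℤ[X], pol a g c = F + C (p : ℤ) * R') ∧ ¬ (p : ℤ) ^ 2 ∣ (pol a g c).eval 0

/-- **EP** (30 min). Factorisation over `ℤ_[p]`.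

PROOF. `1` is a simple root of `f` modulo `p` (`f' ≡ n x^(n-1) - (n-1) x^(n-2)` is `1` at `1`), so Hensel gives `t ∈ ℤ_[p]`, `f(t) = 0`, `t ≡ 1`. `f = (x - t) E` (`mul_divByMonic_eq_iff_isRoot`), `E` monic of degree `n - 1`; modulo the
maximal ideal `(x - 1) E = x^(n-1)(x - 1)`, so `E ≡ x^(n-1)`; `f(0) = -t E(0)`, `t` a unit, so `E(0) ∈ (p) \ (p^2)`.  Eisenstein (`IsEisensteinAt.irreducible`, primitive because monic), and irreducible over the fraction field `ℚ_[p]`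
(`Monic.irreducible_iff_irreducible_map_fraction_map`). -/
def S_EP : Prop := ∀ (n p : ℕ) [Fact p.Prime] (f R : ℤ[X]), 3 ≤ n → f.Monic → f.natDegree = n →
  f = X ^ n - X ^ (n - 1) + C (p : ℤ) * R → ¬ (p : ℤ) ^ 2 ∣ f.eval 0 →
  ∃ (t : ℚ_[p]) (E : ℚ_[p][X]), E.Monic ∧ Irreducible E ∧ f.map (Int.castRingHom ℚ_[p]) = (X - C t) * E

/-- **TT** (40 min). Doubly transitive.

PROOF. Embeddings `φ` of `ℚ(θ)` correspond to the roots `φ(θ)` of `f` (`f` is irreducible over `ℚ`, separable). (i) There is `τ` with `τ φ = φ'` (`AlgHom.liftNormal`; see `lift_emb` in `Pool/Agent/N78/CF/TR2.lean`). So we may assume `φ = φ'`; let `x = φ(θ)`,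
`y = ψ(θ) ≠ x`, `y' = ψ'(θ) ≠ x` (after replacing `ψ` by `τ ψ`). (ii) `K₁ = ℚ(x)`, `h = f/(X - x) ∈ K₁[X]`. There is a ring homomorphism `ι : K₁ → ℚ_[p]` with `x ↦ t` (`f` irreducible, `f(t) = 0`; as in `Pool/Agent/D0H16/KC/Loc.lean`), it maps `h` to `E`
(cancel `X - t`), which is irreducible; so `h` is irreducible over `K₁` (a factorisation of the monic `h` into monic factors of smaller degree would be mapped to one of `E`).  `y` and `y'` are roots of `h`, so there is an automorphism `σ` of `AlgebraicClosure ℚ` over `K₁` with `σ y = y'`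
(`h` is the minimal polynomial of both over `K₁`: `IsConjRoot`, `isConjRoot_iff_exists_algEquiv` in the normal extension; `AlgebraicClosure ℚ` is normal over `K₁`).  (The argument is that of `t_TR2` in `Pool/Agent/N78/CF/TR2.lean`.) -/
def S_TT : Prop := ∀ (f : ℤ[X]) (p : ℕ) [Fact p.Prime] (t : ℚ_[p]) (E : ℚ_[p][X]), f.Monic → Irreducible f →
  E.Monic → Irreducible E → f.map (Int.castRingHom ℚ_[p]) = (X - C t) * E →
  ∀ θ : AlgebraicClosure ℚ, aeval θ f = 0 →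
  ∀ φ ψ φ' ψ' : IntermediateField.adjoin ℚ {θ} →ₐ[ℚ] AlgebraicClosure ℚ, φ ≠ ψ → φ' ≠ ψ' →
    ∃ σ : AlgebraicClosure ℚ ≃ₐ[ℚ] AlgebraicClosure ℚ, σ.toAlgHom.comp φ = φ' ∧ σ.toAlgHom.comp ψ = ψ'

/-- **SW** (50 min). A transposition.

PROOF. `N` the splitting field of `f` in `AlgebraicClosure ℚ`, Galois over `ℚ`; roots `α_1, …, α_n ∈ 𝓞 N`, different. `𝔓` a prime of `𝓞 N` above `p`. Modulo `𝔓`: `∏ (x - α_i) = x² (x^(n-2) - 1)`, and `x^(n-2) - 1` is separable (`p > n`) and not `0` at `0`; so exactly two of the `α_i`,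
say `α, α'`, lie in `𝔓`, and the other ones are different modulo `𝔓` (and from `0`).  `± f(0) = ∏ α_i ∈ 𝔓²`, `f(0) = p u`, `p ∤ u`, so `p ∈ 𝔓²`: `𝔓` is ramified, so there is `σ ≠ 1` in the Galois group with `σ z - z ∈ 𝔓` for all `z ∈ 𝓞 N`
(inertia group; see `Pool/Agent/N492/CF/INR.lean`: `map_le_sq` and the rest of `t_INR`, which gets `σ` from `𝔭 𝓞 ≤ 𝔓²`).  `σ` permutes the roots, fixes all of them except possibly `α, α'`, and is not the identity, so it interchanges `α` and `α'`.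
Extend `σ` to `AlgebraicClosure ℚ`; `φ(θ) = α`, `ψ(θ) = α'`. (See `t_SWP` in `Pool/Agent/N693/CF/SWP.lean` for the last steps.) -/
def S_SW : Prop := ∀ (n p : ℕ) (f R : ℤ[X]), 3 ≤ n → p.Prime → n < p → f.Monic → f.natDegree = n → Irreducible f →
  f = X ^ n - X ^ 2 + C (p : ℤ) * R → ¬ (p : ℤ) ^ 2 ∣ f.eval 0 → ∀ θ : AlgebraicClosure ℚ, aeval θ f = 0 →
  ∃ (σ : AlgebraicClosure ℚ ≃ₐ[ℚ] AlgebraicClosure ℚ)
    (φ ψ : IntermediateField.adjoin ℚ {θ} →ₐ[ℚ] AlgebraicClosure ℚ),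
    φ ≠ ψ ∧ σ.toAlgHom.comp φ = ψ ∧ σ.toAlgHom.comp ψ = φ ∧
    ∀ χ : IntermediateField.adjoin ℚ {θ} →ₐ[ℚ] AlgebraicClosure ℚ, χ ≠ φ → χ ≠ ψ → σ.toAlgHom.comp χ = χ

end Pool.Agent.D0H34.KC
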