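import Pool.Agent.D0H34.KC.Crt
import Pool.Agent.D0H34.KC.Stm3

/-! Project KC, third round: all congruence conditions together, for all `a ≡ α`. -/

set_option autoImplicit false

open Polynomial

namespace Pool.Agent.D0H34.KC

/-- the primes -/
def bs {k : ℕ} (p p₂ p₃ w : ℕ) (q : Fin k → ℕ) : Option (Option (Option (Option (Fin k)))) → ℕ
  | none => p
  | some none => p₂
  | some (some none) => p₃
  | some (some (some none)) => w
  | some (some (some (some i))) => q i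

/-- the exponents -/
def es {k : ℕ} : Option (Option (Option (Option (Fin k)))) → ℕ
  | none => 2
  | some none => 2
  | some (some none) => 2
  | some (some (some none)) => 1
  | some (some (some (some _))) => 1

/-- the values -/
def vs {k : ℕ} (x x₂ x₃ : ℤ) (y : Fin k → ℤ) : Option (Option (Option (Option (Fin k)))) → ℤ
  | none => x
  | some none => x₂
  | some (some none) => x₃
  | some (some (some none)) => 0
  | some (some (some (some i))) => y i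

/-- products of linear factors modulo `p` -/
theorem prod_congr_mod {k : ℕ} (p : ℕ) (a α : Fin k → ℤ) (h : ∀ i, a i ≡ α i [ZMOD p]) :
    ∃ S : ℤ[X], (∏ i, (X - C (a i)) : ℤ[X]) = ∏ i, (X - C (α i)) + C (p : ℤ) * S := by
  have h1 : C (p : ℤ) ∣ (∏ i, (X - C (a i)) : ℤ[X]) - ∏ i, (X - C (α i)) := by
    rw [C_dvd_iff_dvd_coeff]
    intro j
    have h2 : ((∏ i, (X - C (a i)) : ℤ[X])).map (Int.castRingHom (ZMod p)) =
        ((∏ i, (X - C (α i)) : ℤ[X])).map (Int.castRingHom (ZMod p)) := by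
      rw [Polynomial.map_prod, Polynomial.map_prod]
      refine Finset.prod_congr rfl fun i _ => ?_
      rw [Polynomial.map_sub, Polynomial.map_sub, map_C, map_C]
      congr 2
      exact (ZMod.intCast_eq_intCast_iff _ _ _).2 (h i)
    have h3 := congrArg (fun P => coeff P j) h2
    simp only [coeff_map] at h3
    rw [coeff_sub]
    have h4 := (ZMod.intCast_eq_intCast_iff _ _ _).1 h3
    exact (Int.modEq_iff_dvd).1 h4.symm
  obtain ⟨S, hS⟩ := h1
  exact ⟨S, by rw [← hS]; ring⟩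

/-- the two new conditions -/
def Two (n : ℕ) (f : ℤ[X]) : Prop := ∃ (p : ℕ) (R : ℤ[X]), p.Prime ∧
  f = X ^ n - X ^ (n - 1) + C (p : ℤ) * R ∧ ¬ (p : ℤ) ^ 2 ∣ f.eval 0

def Swp (n : ℕ) (f : ℤ[X]) : Prop := ∃ (p : ℕ) (R : ℤ[X]), p.Prime ∧ n < p ∧
  f = X ^ n - X ^ 2 + C (p : ℤ) * R ∧ ¬ (p : ℤ) ^ 2 ∣ f.eval 0

theorem crt3 (hPRM : S_PRM3) (hGP : S_GP) (hG2 : S_G2) (hGQ : S_GQ) (hGW : S_GW) (n k m : ℕ) (hm : 2 ≤ m)
    (hk : k + 2 ≤ n) (hn : 3 ≤ n) :
    ∃ (w M : ℕ) (α : Fin k → ℤ), w.Prime ∧ 1 ≤ M ∧ ∀ a : Fin k → ℤ, (∀ i, a i ≡ α i [ZMOD M]) →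
      ∀ s : ℕ, ∃ G : ℕ → ℤ, ∀ g : ℤ[X], g.Monic →
      g.natDegree = n - k → (∀ j < n - k, g.coeff j ≡ G j [ZMOD M]) →
      Good m w a (pol a g ((w : ℤ) ^ (s * m))) ∧ Two n (pol a g ((w : ℤ) ^ (s * m))) ∧
        Swp n (pol a g ((w : ℤ) ^ (s * m))) := by
  obtain ⟨p, p₂, p₃, w, q, α, g₂, g₃, R₂, R₃, ⟨hp, hp2, hp3, hw, hq⟩, hqi, ⟨n1, n2, n3, n4, n5, n6⟩, hqn,
    ⟨hw1, hw2, hw3⟩, han', hap', haw', haww', haq', haq0', hchar', hnp3, hg2m, hg2d, hg3m, hg3d, e2, e3⟩ :=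
    hPRM n k m hm (by omega) hn
  have hbp : ∀ o, (bs p p₂ p₃ w q o).Prime := by
    rintro (_ | _ | _ | _ | i)
    · exact hp
    · exact hp2
    · exact hp3
    · exact hw
    · exact hq i
  have hbi : ∀ o o', o ≠ o' → bs p p₂ p₃ w q o ≠ bs p p₂ p₃ w q o' := by
    rintro (_ | _ | _ | _ | i) (_ | _ | _ | _ | j) hij
    · exact absurd rfl hij
    · exact n1
    · exact n2
    · exact n4
    · exact (hqn j).1.symm
    · exact n1.symm
    · exact absurd rfl hij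
    · exact n3
    · exact n5
    · exact (hqn j).2.1.symm
    · exact n2.symm
    · exact n3.symm
    · exact absurd rfl hij
    · exact n6
    · exact (hqn j).2.2.1.symm
    · exact n4.symm
    · exact n5.symm
    · exact n6.symm
    · exact absurd rfl hij
    · exact (hqn j).2.2.2.symm
    · exact (hqn i).1
    · exact (hqn i).2.1
    · exact (hqn i).2.2.1
    · exact (hqn i).2.2.2
    · intro h
      exact hij (by rw [hqi h])
  obtain ⟨Mf, hMf⟩ : ∃ Mf : Option (Option (Option (Option (Fin k)))) → ℕ,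
      Mf = fun o => bs p p₂ p₃ w q o ^ es o := ⟨_, rfl⟩
  have hM1 : Mf none = p ^ 2 := by rw [hMf]; rfl
  have hM2 : Mf (some none) = p₂ ^ 2 := by rw [hMf]; rfl
  have hM3 : Mf (some (some none)) = p₃ ^ 2 := by rw [hMf]; rfl
  have hM4 : Mf (some (some (some none))) = w := by rw [hMf]; exact pow_one w
  have hM5 : ∀ i, Mf (some (some (some (some i)))) = q i := by intro i; rw [hMf]; exact pow_one (q i)
  have h0 : ∀ o, Mf o ≠ 0 := fun o => by rw [hMf]; exact pow_ne_zero _ (hbp o).ne_zero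
  have hc : ∀ i j, i ≠ j → Nat.Coprime (Mf i) (Mf j) := fun i j hij => by
    rw [hMf]
    exact Nat.coprime_pow_primes _ _ (hbp i) (hbp j) (hbi i j hij)
  refine ⟨w, ∏ o, Mf o, α, hw, Nat.one_le_iff_ne_zero.2 (Finset.prod_ne_zero_iff.2 fun o _ => h0 o),
    fun a ha s => ?_⟩
  have hdvd : ∀ o, ((Mf o : ℕ) : ℤ) ∣ ((∏ o, Mf o : ℕ) : ℤ) := fun o =>
    Int.natCast_dvd_natCast.2 (Finset.dvd_prod_of_mem Mf (Finset.mem_univ o))
  have hsq : ∀ u : ℕ, (u : ℤ) ∣ ((u ^ 2 : ℕ) : ℤ) := fun u => by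
    push_cast
    exact Dvd.intro_left ((u : ℤ) ^ 1) (by ring)
  have tp : ∀ i, a i ≡ α i [ZMOD p] := fun i => by
    have := hdvd none
    rw [hM1] at this
    exact (ha i).of_dvd ((hsq p).trans this)
  have tp2 : ∀ i, a i ≡ α i [ZMOD p₂] := fun i => by
    have := hdvd (some none)
    rw [hM2] at this
    exact (ha i).of_dvd ((hsq p₂).trans this)
  have tp3 : ∀ i, a i ≡ α i [ZMOD p₃] := fun i => by
    have := hdvd (some (some none))
    rw [hM3] at this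
    exact (ha i).of_dvd ((hsq p₃).trans this)
  have tw : ∀ i, a i ≡ α i [ZMOD w] := fun i => by
    have := hdvd (some (some (some none)))
    rw [hM4] at this
    exact (ha i).of_dvd this
  have tq : ∀ i j, a i ≡ α i [ZMOD q j] := fun i j => by
    have := hdvd (some (some (some (some j))))
    rw [hM5] at this
    exact (ha i).of_dvd this
  have tr : ∀ (N : ℤ) (x y : ℤ), x ≡ y [ZMOD N] → ¬ N ∣ y → ¬ N ∣ x := by
    intro N x y hxy hy hx
    exact hy ((Int.modEq_zero_iff_dvd).1 (hxy.symm.trans ((Int.modEq_zero_iff_dvd).2 hx)))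
  have han : ∀ i, a i ^ n ≡ 1 [ZMOD p] := fun i => ((tp i).pow n).trans (han' i)
  have hap : ∀ i j, i ≠ j → ¬ (p : ℤ) ∣ a i - a j := fun i j hij =>
    tr _ _ _ ((tp i).sub (tp j)) (hap' i j hij)
  have haw : ∀ i, ¬ (w : ℤ) ∣ a i := fun i => tr _ _ _ (tw i) (haw' i)
  have haww : ∀ i j, i ≠ j → ¬ (w : ℤ) ∣ a i - a j := fun i j hij =>
    tr _ _ _ ((tw i).sub (tw j)) (haww' i j hij)
  have haq : ∀ i j, i ≠ j → a j ≡ -1 [ZMOD q i] := fun i j hij => (tq j i).trans (haq' i j hij)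
  have haq0 : ∀ i, ¬ (q i : ℤ) ∣ a i := fun i => tr _ _ _ (tq i i) (haq0' i)
  have hchar : ∀ (i : Fin k) [Fact (q i).Prime] (ℓ : ℕ), ℓ.Prime → ℓ ∣ m → ∀ (e : ℤ) (z : ZMod (q i)), z ≠ 0 →
      ((-a i : ℤ) : ZMod (q i)) ^ e = z ^ ℓ → (ℓ : ℤ) ∣ e := by
    intro i _ ℓ hℓ hℓm e z hz he
    refine hchar' i ℓ hℓ hℓm e z hz ?_
    have h1 : ((a i : ℤ) : ZMod (q i)) = ((α i : ℤ) : ZMod (q i)) :=
      (ZMod.intCast_eq_intCast_iff _ _ _).2 (tq i i)
    rw [Int.cast_neg, ← h1, ← Int.cast_neg]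
    exact he
  have hq0 : ∀ i j, ¬ (q i : ℤ) ∣ a j := by
    intro i j
    by_cases hij : i = j
    · subst hij
      exact haq0 i
    · intro hd
      have h1 := haq i j hij
      have h2 : ((q i : ℕ) : ℤ) ∣ -1 - a j := (Int.modEq_iff_dvd).1 h1
      have h3 : ((q i : ℕ) : ℤ) ∣ 1 := by
        have := (dvd_add h2 hd)
        rw [show -1 - a j + a j = -1 by ring] at this
        exact (dvd_neg).1 this
      have h4 := Int.eq_one_of_dvd_one (by positivity) h3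
      exact (hq i).one_lt.ne' (by exact_mod_cast h4)
  have hcp : ∀ u : ℕ, (w : ℤ) ≡ 1 [ZMOD u] → ((w : ℤ) ^ (s * m)) ≡ 1 [ZMOD u] := by
    intro u hu
    have := hu.pow (s * m)
    rwa [one_pow] at this
  obtain ⟨Gp, hGp⟩ := hGP n k (n - k) p a ((w : ℤ) ^ (s * m)) hp (by omega) (by omega) han hap (hcp p hw1)
  obtain ⟨S₂, hS₂⟩ := prod_congr_mod p₂ a α tp2
  obtain ⟨S₃, hS₃⟩ := prod_congr_mod p₃ a α tp3
  obtain ⟨G₂, hG₂⟩ := hG2 n k (n - k) p₂ a ((w : ℤ) ^ (s * m)) (X ^ n - X ^ (n - 1)) g₂ (R₂ + S₂ * g₂) hp2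
    (by omega) (by omega)
    (by
      rw [eval_sub, eval_pow, eval_pow, eval_X, zero_pow (by omega), zero_pow (by omega), sub_zero]
      exact dvd_zero _) hg2m hg2d
    (by rw [hS₂, add_mul, e2]; ring) (hcp p₂ hw2)
  obtain ⟨G₃, hG₃⟩ := hG2 n k (n - k) p₃ a ((w : ℤ) ^ (s * m)) (X ^ n - X ^ 2) g₃ (R₃ + S₃ * g₃) hp3
    (by omega) (by omega)
    (by
      rw [eval_sub, eval_pow, eval_pow, eval_X, zero_pow (by omega), zero_pow (by omega), sub_zero]
      exact dvd_zero _) hg3m hg3d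
    (by rw [hS₃, add_mul, e3]; ring) (hcp p₃ hw3)
  have hGq' : ∀ i, ∃ G : ℕ → ℤ, ∀ g : ℤ[X], g.Monic → g.natDegree = n - k →
      (∀ j < n - k, g.coeff j ≡ G j [ZMOD (q i : ℕ)]) →
      ((q i : ℕ) : ℤ) ∣ (pol a g ((w : ℤ) ^ (s * m))).eval 0 ∧
        ¬ ((q i : ℕ) : ℤ) ∣ (pol a g ((w : ℤ) ^ (s * m))).derivative.eval 0 :=
    fun i => hGQ k (n - k) (q i) a _ (hq i) (by omega) (hq0 i)
  choose Gq hGq using hGq'
  have hex : ∀ j : ℕ, ∃ x : ℤ, ∀ o, x ≡ vs (Gp j) (G₂ j) (G₃ j) (fun i => Gq i j) o [ZMOD Mf o] :=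
    fun j => crt_int _ Mf h0 hc
  choose G hG using hex
  refine ⟨G, fun g hg hd hco => ?_⟩
  have hco' : ∀ o, ∀ j < n - k, g.coeff j ≡ vs (Gp j) (G₂ j) (G₃ j) (fun i => Gq i j) o [ZMOD Mf o] :=
    fun o j hj => ((hco j hj).of_dvd (hdvd o)).trans (hG j o)
  have d1 : ∀ j < n - k, g.coeff j ≡ Gp j [ZMOD (p : ℤ) ^ 2] := by
    intro j hj
    have := hco' none j hj
    rw [hM1] at this
    push_cast at this
    exact this
  have d2 : ∀ j < n - k, g.coeff j ≡ G₂ j [ZMOD (p₂ : ℤ) ^ 2] := by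
    intro j hj
    have := hco' (some none) j hj
    rw [hM2] at this
    push_cast at this
    exact this
  have d3 : ∀ j < n - k, g.coeff j ≡ G₃ j [ZMOD (p₃ : ℤ) ^ 2] := by
    intro j hj
    have := hco' (some (some none)) j hj
    rw [hM3] at this
    push_cast at this
    exact this
  have d4 : ∀ j < n - k, (w : ℤ) ∣ g.coeff j := by
    intro j hj
    have := hco' (some (some (some none))) j hj
    rw [hM4] at this
    exact (Int.modEq_zero_iff_dvd).1 this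
  have d5 : ∀ i, ∀ j < n - k, g.coeff j ≡ Gq i j [ZMOD (q i : ℕ)] := by
    intro i j hj
    have := hco' (some (some (some (some i)))) j hj
    rw [hM5] at this
    exact this
  refine ⟨⟨hGp g hg hd d1, fun i => ?_, fun i => ⟨q i, hq i, (hGq i g hg hd (d5 i)).1,
    (hGq i g hg hd (d5 i)).2, hq0 i, fun j hij => haq i j hij,
    fun {_} ℓ hℓ hℓm e z hz he => hchar i ℓ hℓ hℓm e z hz he⟩⟩, ?_, ?_⟩
  · have h1 := hGW k (n - k) w a ((w : ℤ) ^ (s * m)) hw haw haww g hg hd d4 i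
    exact (((Nat.prime_iff_prime_int.1 hw).coprime_iff_not_dvd).2 h1).symm
  · obtain ⟨⟨R', hR'⟩, hs'⟩ := hG₂ g hg hd d2
    exact ⟨p₂, R', hp2, hR', hs'⟩
  · obtain ⟨⟨R', hR'⟩, hs'⟩ := hG₃ g hg hd d3
    exact ⟨p₃, R', hp3, hnp3, hR', hs'⟩

end Pool.Agent.D0H34.KC
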