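import Pool.Agent.D0H34.KC.Asm

/-! Project KC: final assembly. -/

set_option autoImplicit false

open Polynomial NumberField

namespace Pool.Agent.D0H34.KC

open Pool.Agent.D0H34.KG

/-- the exponent -/
theorem expo_lt (n r : ℕ) (hr : 1 ≤ r) (h : r + 2 ≤ n / 2) :
    (1 : ℝ) / 8 - (r + 3) / (2 * n) <
      ((((n / 2 - r : ℕ) : ℝ) * (((n / 2 - r : ℕ) : ℝ) + 1)) / 2 - (n + 1)) / (n * (n - 1)) := by
  have h1 : (n : ℝ) - 1 ≤ 2 * (((n / 2 - r : ℕ) : ℝ) + r) := by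
    have : n ≤ 2 * ((n / 2 - r) + r) + 1 := by omega
    have h2 : (n : ℝ) ≤ 2 * (((n / 2 - r : ℕ) : ℝ) + r) + 1 := by exact_mod_cast this
    linarith
  obtain ⟨d, hd⟩ : ∃ d : ℝ, d = ((n / 2 - r : ℕ) : ℝ) := ⟨_, rfl⟩
  rw [← hd] at h1 ⊢
  have hr' : (1 : ℝ) ≤ r := by exact_mod_cast hr
  have hn' : 2 * ((r : ℝ) + 2) ≤ n := by
    have : 2 * (r + 2) ≤ n := by omega
    exact_mod_cast this
  have hd2 : ((n : ℝ) - 1) / 2 - r ≤ d := by linarith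
  have hd3 : (0 : ℝ) ≤ ((n : ℝ) - 1) / 2 - r := by linarith
  have h3 : (((n : ℝ) - 1) / 2 - r) * ((((n : ℝ) - 1) / 2 - r) + 1) ≤ d * (d + 1) :=
    mul_le_mul hd2 (by linarith) (by linarith) (by linarith)
  have hn0 : (0 : ℝ) < n := by linarith
  have hn1 : (0 : ℝ) < (n : ℝ) - 1 := by linarith
  rw [lt_div_iff₀ (by positivity)]
  have h4 : ((1 : ℝ) / 8 - (r + 3) / (2 * n)) * (n * (n - 1)) = (n * (n - 1)) / 8 - (r + 3) * (n - 1) / 2 := by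
    field_simp
  rw [h4]
  nlinarith

/-- the choice of `s` -/
theorem exists_s (w m n H : ℕ) (hw : 2 ≤ w) (hm : 1 ≤ m) (hn : 1 ≤ n) (hH : 1 ≤ H) :
    ∃ s : ℕ, (10 * H : ℤ) ^ n < (w : ℤ) ^ (s * m) ∧ (w : ℤ) ^ (s * m) ≤ ((10 * w ^ m : ℕ) * H : ℤ) ^ n := by
  have hex : ∃ s : ℕ, (10 * H) ^ n < w ^ (s * m) := by
    refine ⟨(10 * H) ^ n, ?_⟩
    calc (10 * H) ^ n < 2 ^ ((10 * H) ^ n) := Nat.lt_two_pow_self
      _ ≤ w ^ ((10 * H) ^ n) := Nat.pow_le_pow_left hw _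
      _ ≤ w ^ ((10 * H) ^ n * m) := Nat.pow_le_pow_right (by omega) (Nat.le_mul_of_pos_right _ hm)
  classical
  obtain ⟨s, hs, hmin⟩ : ∃ s, (10 * H) ^ n < w ^ (s * m) ∧ ∀ s' < s, ¬ (10 * H) ^ n < w ^ (s' * m) :=
    ⟨Nat.find hex, Nat.find_spec hex, fun s' hs' => Nat.find_min hex hs'⟩
  have hs0 : s ≠ 0 := by
    rintro rfl
    rw [zero_mul, pow_zero] at hs
    have : 1 ≤ (10 * H) ^ n := Nat.one_le_pow _ _ (by omega)
    omega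
  have h1 : w ^ ((s - 1) * m) ≤ (10 * H) ^ n := not_lt.1 (hmin (s - 1) (by omega))
  refine ⟨s, by exact_mod_cast hs, ?_⟩
  have h2 : w ^ (s * m) ≤ (10 * w ^ m * H) ^ n := by
    calc w ^ (s * m) = w ^ ((s - 1) * m) * w ^ m := by
          rw [← pow_add]
          congr 1
          obtain ⟨t, rfl⟩ := Nat.exists_eq_succ_of_ne_zero hs0
          simp only [Nat.succ_eq_add_one, Nat.add_sub_cancel]
          ring
      _ ≤ (10 * H) ^ n * (w ^ m) ^ n := by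
          refine Nat.mul_le_mul h1 ?_
          exact Nat.le_self_pow (by omega) _
      _ = _ := by rw [← mul_pow]; congr 1; ring
  exact_mod_cast h2

theorem main (hPRM : S_PRM) (hGP : S_GP) (hGQ : S_GQ) (hGW : S_GW) (hNUM : S_NUM)
    (hCLS : S_CLS) (hLOC : S_LOC) (hPLC : S_PLC) (hIDL : S_IDL) (hCPX : S_CPX) (hFIB : S_FIB)
    (n m r : ℕ) (hm : 2 ≤ m) (hr : r + 2 ≤ n / 2) :
    (∃ c : ℝ, 0 < c ∧ ∃ X₀ : ℝ, ∀ X : ℝ, X₀ ≤ X → (Cnt n m r X).Finite ∧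
      c * X ^ (((((n / 2 - r : ℕ) : ℝ) * (((n / 2 - r : ℕ) : ℝ) + 1)) / 2 - (n + 1)) / (n * (n - 1))) ≤
        ((Cnt n m r X).ncard : ℝ)) ∧
    (1 ≤ r → ∃ X₀ : ℝ, ∀ X : ℝ, X₀ ≤ X →
      X ^ ((1 : ℝ) / 8 - (r + 3) / (2 * n)) ≤ ((Cnt n m r X).ncard : ℝ)) := by
  have key : ∃ c : ℝ, 0 < c ∧ ∃ X₀ : ℝ, ∀ X : ℝ, X₀ ≤ X → (Cnt n m r X).Finite ∧
      c * X ^ (((((n / 2 - r : ℕ) : ℝ) * (((n / 2 - r : ℕ) : ℝ) + 1)) / 2 - (n + 1)) / (n * (n - 1))) ≤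
        ((Cnt n m r X).ncard : ℝ) := by
    obtain ⟨k, hk⟩ : ∃ k, k = (n + 1) / 2 + r := ⟨_, rfl⟩
    have hkn : k + 2 ≤ n := by omega
    have hdk : n - k = n / 2 - r := by omega
    obtain ⟨w, M, a, hw, hM, hG⟩ := crt hPRM hGP hGQ hGW n k m hm hkn
    obtain ⟨H₀, hH₀⟩ : ∃ H₀ : ℕ, ∀ i, |a i| ≤ H₀ := by
      refine ⟨∑ i, (a i).natAbs, fun i => ?_⟩
      rw [Int.abs_eq_natAbs]
      exact_mod_cast Finset.single_le_sum (f := fun i => (a i).natAbs) (fun _ _ => Nat.zero_le _) (Finset.mem_univ i)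
    obtain ⟨c, hc, X₀, hX₀⟩ := hNUM n (n / 2 - r) M (10 * w ^ m) H₀ (by omega) hM
      (by have := Nat.one_le_pow m w hw.one_lt.le; omega)
    refine ⟨c, hc, X₀, fun X hX => ⟨cnt_finite n m r X, ?_⟩⟩
    obtain ⟨H, h1, h2, h3, h4⟩ := hX₀ X hX
    obtain ⟨s, hs1, hs2⟩ := exists_s w m n H hw.two_le (by omega) (by omega) h2
    obtain ⟨G, hG'⟩ := hG s
    have h5 := count hCLS hLOC hPLC hIDL hCPX hFIB n m r k w s M H (10 * w ^ m) a G hm hk hkn hw hM hG' h2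
      (fun i => (hH₀ i).trans (by exact_mod_cast h1)) hs1 hs2 X h3
    rw [hdk] at h5
    have h6 : ∏ j ∈ Finset.range (n / 2 - r), ((H ^ (n / 2 - r - j) / M : ℕ) : ℝ) ≤
        (4 * (4 * ((10 * w ^ m : ℕ) : ℝ) * H) + 1) ^ (n + 1) * ((Cnt n m r X).ncard : ℝ) := by
      exact_mod_cast h5
    have h7 : (0 : ℝ) < (4 * (4 * ((10 * w ^ m : ℕ) : ℝ) * H) + 1) ^ (n + 1) := by positivity
    have h8 := h4.trans h6
    rw [mul_comm ((4 * (4 * ((10 * w ^ m : ℕ) : ℝ) * H) + 1) ^ (n + 1))] at h8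
    exact le_of_mul_le_mul_right h8 h7
  refine ⟨key, fun hr1 => ?_⟩
  obtain ⟨c, hc, X₀, hX₀⟩ := key
  have he := expo_lt n r hr1 hr
  obtain ⟨e, hedef⟩ : ∃ e : ℝ, e = ((((n / 2 - r : ℕ) : ℝ) * (((n / 2 - r : ℕ) : ℝ) + 1)) / 2 - (n + 1)) / (n * (n - 1)) :=
    ⟨_, rfl⟩
  rw [← hedef] at he hX₀
  obtain ⟨e', hedef'⟩ : ∃ e' : ℝ, e' = (1 : ℝ) / 8 - (r + 3) / (2 * n) := ⟨_, rfl⟩
  rw [← hedef'] at he ⊢
  have hlim : Filter.Tendsto (fun X : ℝ => X ^ (e - e')) Filter.atTop Filter.atTop :=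
    tendsto_rpow_atTop (by linarith)
  obtain ⟨X₁, hX₁⟩ := Filter.eventually_atTop.1 (hlim.eventually_ge_atTop (1 / c))
  refine ⟨max X₀ (max X₁ 1), fun X hX => ?_⟩
  have g1 : X₀ ≤ X := le_trans (le_max_left _ _) hX
  have g2 : X₁ ≤ X := le_trans (le_max_left _ _) (le_trans (le_max_right _ _) hX)
  have g3 : (1 : ℝ) ≤ X := le_trans (le_max_right _ _) (le_trans (le_max_right _ _) hX)
  refine le_trans ?_ (hX₀ X g1).2
  have g4 := hX₁ X g2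
  have g5 : X ^ e = X ^ (e - e') * X ^ e' := by
    rw [← Real.rpow_add (by linarith)]
    congr 1
    ring
  rw [g5]
  have g6 : 0 < X ^ e' := Real.rpow_pos_of_pos (by linarith) _
  have g7 : 1 ≤ c * X ^ (e - e') := by
    rw [div_le_iff₀ hc] at g4
    linarith
  nlinarith

end Pool.Agent.D0H34.KC
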