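import Pool.Agent.D0H34.KC.Stm

/-! Project KC, second round: the numbers `a_i` vary too. -/

set_option autoImplicit false

namespace Pool.Agent.D0H34.KC

/-- **NUM2**: as `S_NUM` (see there, and `Pool.Agent.D0H56.KC.Num`), with `k` more factors `⌊H / M⌋`. -/
def S_NUM2 : Prop := ∀ (n d k M K H₀ : ℕ), 2 ≤ n → 1 ≤ M → 1 ≤ K → ∃ c : ℝ, 0 < c ∧ ∃ X₀ : ℝ, ∀ X : ℝ, X₀ ≤ X →
  ∃ H : ℕ, H₀ ≤ H ∧ 1 ≤ H ∧ ((n.factorial : ℝ) ^ 2 * (4 * K * H) ^ (n * (n - 1))) ≤ X ∧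
    c * X ^ ((((d : ℝ) * (d + 1)) / 2 + k - (n + 1)) / (n * (n - 1))) * (4 * (4 * K * H) + 1) ^ (n + 1) ≤
      ((H / M : ℕ) : ℝ) ^ k * ∏ j ∈ Finset.range d, ((H ^ (d - j) / M : ℕ) : ℝ)

end Pool.Agent.D0H34.KC
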