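import Pool.Agent.D0H34.KC.Asm2
import Pool.Agent.D0H34.KC.Crt3
import Pool.Agent.D0H34.KC.Stm2
import Pool.Agent.D0H34.KC.Fin
import Pool.Agent.N169.CF.FULL

/-! Project KC: final assembly, third round. -/

set_option autoImplicit false

open Polynomial NumberField

namespace Pool.Agent.D0H34.KC

open Pool.Agent.D0H34.KG

/-- the group is the full symmetric group -/
theorem sym_of_two_swp (hEP : S_EP) (hTT : S_TT) (hSW : S_SW) (n : ℕ) (f : ℤ[X]) (hn : 3 ≤ n) (hf : f.Monic)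
    (hd : f.natDegree = n) (hirr : Irreducible f) (h2 : Two n f) (h3 : Swp n f) (θ : AlgebraicClosure ℚ)
    (hθ : aeval θ f = 0) : Pool.Agent.D0H15.SK.Sym (IntermediateField.adjoin ℚ {θ}) := by
  have hint : IsIntegral ℚ θ := by
    have : IsIntegral ℤ θ := ⟨f, hf, by rwa [aeval_def] at hθ⟩
    exact this.tower_top
  have hfin : FiniteDimensional ℚ (IntermediateField.adjoin ℚ {θ}) := IntermediateField.adjoin.finiteDimensional hint
  obtain ⟨p, R, hp, e, hs⟩ := h2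
  obtain ⟨p', R', hp', hnp', e', hs'⟩ := h3
  have : Fact p.Prime := ⟨hp⟩
  obtain ⟨t, E, hE, hEi, hEf⟩ := hEP n p f R hn hf hd e hs
  exact @Pool.Agent.N169.CF.sym_of ℚ _ (IntermediateField.adjoin ℚ {θ}) hfin
    (hTT f p t E hf hirr hE hEi hEf θ hθ) (hSW n p' f R' hn hp' hnp' hf hd hirr e' hs' θ hθ)

/-- the exponent -/
theorem expo_lt2 (n r : ℕ) (hr : 1 ≤ r) (h : r + 2 ≤ n / 2) :
    (1 : ℝ) / 8 - (r + 1) / (2 * n) <
      ((((n / 2 - r : ℕ) : ℝ) - 2) * (((n / 2 - r : ℕ) : ℝ) + 1)) / (2 * n * (n - 1)) := by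
  have h1 : (n : ℝ) - 1 ≤ 2 * (((n / 2 - r : ℕ) : ℝ) + r) := by
    have : n ≤ 2 * ((n / 2 - r) + r) + 1 := by omega
    have h2 : (n : ℝ) ≤ 2 * (((n / 2 - r : ℕ) : ℝ) + r) + 1 := by exact_mod_cast this
    linarith
  obtain ⟨d, hd⟩ : ∃ d : ℝ, d = ((n / 2 - r : ℕ) : ℝ) := ⟨_, rfl⟩
  rw [← hd] at h1 ⊢
  have hr' : (1 : ℝ) ≤ r := by exact_mod_cast hr
  have hn' : 2 * ((r : ℝ) + 2) ≤ n := by
    have : 2 * (r + 2) ≤ n := by omega
    exact_mod_cast this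
  have hd2 : ((n : ℝ) - 1) / 2 - r ≤ d := by linarith
  have h3 : (((n : ℝ) - 1) / 2 - r - 2) * ((((n : ℝ) - 1) / 2 - r) + 1) ≤ (d - 2) * (d + 1) := by
    nlinarith
  have hn0 : (0 : ℝ) < n := by linarith
  have hn1 : (0 : ℝ) < (n : ℝ) - 1 := by linarith
  rw [lt_div_iff₀ (by positivity)]
  have h4 : ((1 : ℝ) / 8 - (r + 1) / (2 * n)) * (2 * n * (n - 1)) = (n * (n - 1)) / 4 - (r + 1) * (n - 1) := by
    field_simp
    ring
  rw [h4]
  nlinarith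

theorem main2 (hPRM : S_PRM3) (hGP : S_GP) (hG2 : S_G2) (hGQ : S_GQ) (hGW : S_GW) (hNUM : S_NUM2)
    (hCLS : S_CLS) (hLOC : S_LOC) (hPLC : S_PLC) (hIDL : S_IDL) (hCPX : S_CPX) (hFIB : S_FIB)
    (hEP : S_EP) (hTT : S_TT) (hSW : S_SW) (n m r : ℕ) (hm : 2 ≤ m) (hr : r + 2 ≤ n / 2) :
    (∃ c : ℝ, 0 < c ∧ ∃ X₀ : ℝ, ∀ X : ℝ, X₀ ≤ X → (CntQ Pool.Agent.D0H15.SK.Sym n m r X).Finite ∧
      c * X ^ (((((n / 2 - r : ℕ) : ℝ) - 2) * (((n / 2 - r : ℕ) : ℝ) + 1)) / (2 * n * (n - 1))) ≤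
        ((CntQ Pool.Agent.D0H15.SK.Sym n m r X).ncard : ℝ)) ∧
    (1 ≤ r → ∃ X₀ : ℝ, ∀ X : ℝ, X₀ ≤ X →
      X ^ ((1 : ℝ) / 8 - (r + 1) / (2 * n)) ≤ ((CntQ Pool.Agent.D0H15.SK.Sym n m r X).ncard : ℝ)) := by
  have key : ∃ c : ℝ, 0 < c ∧ ∃ X₀ : ℝ, ∀ X : ℝ, X₀ ≤ X → (CntQ Pool.Agent.D0H15.SK.Sym n m r X).Finite ∧
      c * X ^ (((((n / 2 - r : ℕ) : ℝ) - 2) * (((n / 2 - r : ℕ) : ℝ) + 1)) / (2 * n * (n - 1))) ≤
        ((CntQ Pool.Agent.D0H15.SK.Sym n m r X).ncard : ℝ) := by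
    obtain ⟨k, hk⟩ : ∃ k, k = (n + 1) / 2 + r := ⟨_, rfl⟩
    have hkn : k + 2 ≤ n := by omega
    have hdk : n - k = n / 2 - r := by omega
    obtain ⟨w, M, α, hw, hM, hG⟩ := crt3 hPRM hGP hG2 hGQ hGW n k m hm hkn (by omega)
    obtain ⟨H₀, hH₀⟩ : ∃ H₀ : ℕ, ∀ i, 2 * |α i| ≤ H₀ := by
      refine ⟨∑ i, 2 * (α i).natAbs, fun i => ?_⟩
      rw [Int.abs_eq_natAbs]
      exact_mod_cast Finset.single_le_sum (f := fun i => 2 * (α i).natAbs) (fun _ _ => Nat.zero_le _)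
        (Finset.mem_univ i)
    obtain ⟨c, hc, X₀, hX₀⟩ := hNUM n (n / 2 - r) k (2 * M) (10 * w ^ m) H₀ (by omega) (by omega)
      (by have := Nat.one_le_pow m w hw.one_lt.le; omega)
    have hnk : (0 : ℝ) < (n : ℝ) ^ k := by
      have : (0 : ℝ) < n := by exact_mod_cast (by omega : 0 < n)
      positivity
    refine ⟨c / (n : ℝ) ^ k, by positivity, X₀, fun X hX => ⟨cntQ_finite _ n m r X, ?_⟩⟩
    obtain ⟨H, h1, h2, h3, h4⟩ := hX₀ X hX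
    obtain ⟨s, hs1, hs2⟩ := exists_s w m n H hw.two_le (by omega) (by omega) h2
    have h5 := count2 hCLS hLOC hPLC hIDL hCPX hFIB n m r k w s M H (10 * w ^ m) α Pool.Agent.D0H15.SK.Sym
      hm hk hkn hw hM
      (by
        intro a ha
        obtain ⟨G, hG'⟩ := hG a ha s
        refine ⟨G, fun g hg hd hco => ?_⟩
        obtain ⟨g1, g2, g3⟩ := hG' g hg hd hco
        refine ⟨g1, fun θ hθ => ?_⟩
        have hmon := pol_monic (by omega : k < n) a ((w : ℤ) ^ (s * m)) g hg hd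
        exact sym_of_two_swp hEP hTT hSW n _ (by omega) hmon.1 hmon.2 g1.1 g2 g3 θ hθ)
      h2 (fun i => (hH₀ i).trans (by exact_mod_cast h1)) hs1 hs2 X h3
    rw [hdk] at h5
    have h6 : ((H / (2 * M) : ℕ) : ℝ) ^ k * ∏ j ∈ Finset.range (n / 2 - r), ((H ^ (n / 2 - r - j) / M : ℕ) : ℝ) ≤
        ((n : ℝ) ^ k * (4 * (4 * ((10 * w ^ m : ℕ) : ℝ) * H) + 1) ^ (n + 1)) *
          ((CntQ Pool.Agent.D0H15.SK.Sym n m r X).ncard : ℝ) := by
      exact_mod_cast h5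
    have h6' : ∏ j ∈ Finset.range (n / 2 - r), ((H ^ (n / 2 - r - j) / (2 * M) : ℕ) : ℝ) ≤
        ∏ j ∈ Finset.range (n / 2 - r), ((H ^ (n / 2 - r - j) / M : ℕ) : ℝ) := by
      refine Finset.prod_le_prod (fun _ _ => Nat.cast_nonneg _) fun j _ => ?_
      exact_mod_cast Nat.div_le_div_left (by omega) (by omega)
    have h7 : (0 : ℝ) < (4 * (4 * ((10 * w ^ m : ℕ) : ℝ) * H) + 1) ^ (n + 1) := by positivity
    have h8 := (h4.trans (mul_le_mul_of_nonneg_left h6' (by positivity))).trans h6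
    have he : ((((n / 2 - r : ℕ) : ℝ) - 2) * (((n / 2 - r : ℕ) : ℝ) + 1)) / (2 * n * (n - 1)) =
        (((((n / 2 - r : ℕ) : ℝ)) * (((n / 2 - r : ℕ) : ℝ) + 1)) / 2 + k - (n + 1)) / (n * (n - 1)) := by
      have hkr : (k : ℝ) = n - ((n / 2 - r : ℕ) : ℝ) := by
        have : k + (n / 2 - r) = n := by omega
        have h9 : (k : ℝ) + ((n / 2 - r : ℕ) : ℝ) = n := by exact_mod_cast this
        linarith
      have hn0 : (n : ℝ) ≠ 0 := by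
        have : (0 : ℝ) < n := by exact_mod_cast (by omega : 0 < n)
        exact this.ne'
      have hn1 : (n : ℝ) - 1 ≠ 0 := by
        have : (1 : ℝ) < n := by exact_mod_cast (by omega : 1 < n)
        exact (by linarith : (0 : ℝ) < (n : ℝ) - 1).ne'
      rw [hkr]
      field_simp
      ring
    rw [he, div_mul_eq_mul_div, div_le_iff₀ hnk]
    refine le_of_mul_le_mul_right ?_ h7
    calc _ ≤ _ := h8
      _ = _ := by ring
  refine ⟨key, fun hr1 => ?_⟩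
  obtain ⟨c, hc, X₀, hX₀⟩ := key
  have he := expo_lt2 n r hr1 hr
  obtain ⟨e, hedef⟩ : ∃ e : ℝ, e = ((((n / 2 - r : ℕ) : ℝ) - 2) * (((n / 2 - r : ℕ) : ℝ) + 1)) / (2 * n * (n - 1)) :=
    ⟨_, rfl⟩
  rw [← hedef] at he hX₀
  obtain ⟨e', hedef'⟩ : ∃ e' : ℝ, e' = (1 : ℝ) / 8 - (r + 1) / (2 * n) := ⟨_, rfl⟩
  rw [← hedef'] at he ⊢
  have hlim : Filter.Tendsto (fun X : ℝ => X ^ (e - e')) Filter.atTop Filter.atTop :=
    tendsto_rpow_atTop (by linarith)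
  obtain ⟨X₁, hX₁⟩ := Filter.eventually_atTop.1 (hlim.eventually_ge_atTop (1 / c))
  refine ⟨max X₀ (max X₁ 1), fun X hX => ?_⟩
  have g1 : X₀ ≤ X := le_trans (le_max_left _ _) hX
  have g2 : X₁ ≤ X := le_trans (le_max_left _ _) (le_trans (le_max_right _ _) hX)
  have g3 : (1 : ℝ) ≤ X := le_trans (le_max_right _ _) (le_trans (le_max_right _ _) hX)
  refine le_trans ?_ (hX₀ X g1).2
  have g4 := hX₁ X g2
  have g5 : X ^ e = X ^ (e - e') * X ^ e' := by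
    rw [← Real.rpow_add (by linarith)]
    congr 1
    ring
  rw [g5]
  have g6 : 0 < X ^ e' := Real.rpow_pos_of_pos (by linarith) _
  have g7 : 1 ≤ c * X ^ (e - e') := by
    rw [div_le_iff₀ hc] at g4
    linarith
  nlinarith

end Pool.Agent.D0H34.KC
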