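import Pool.Agent.D0H34.KC.Crt
import Pool.Agent.D0H34.KG.Stm
import Pool.Agent.D0H15.SF.Dsc

/-! Project KC: the field of one polynomial. -/

set_option autoImplicit false

open Polynomial NumberField nonZeroDivisors

namespace Pool.Agent.D0H34.KC

open Pool.Agent.D0H34.KG

/-- the discriminant of a field generated by an integer with bounded conjugates -/
theorem dsc (F : Type) [Field F] [NumberField F] (pb : PowerBasis ℚ F) (n : ℕ) (B : ℝ) (hn : pb.dim = n)
    (hint : IsIntegral ℤ pb.gen) (hB : ∀ φ : F →+* ℂ, ‖φ pb.gen‖ ≤ B) :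
    ((|NumberField.discr F| : ℤ) : ℝ) ≤ (n.factorial : ℝ) ^ 2 * B ^ (n * (n - 1)) := by
  have h1 := Pool.Agent.D0H15.SF.discr_le pb.basis (fun i => by
    rw [pb.basis_eq_pow]
    exact hint.pow _)
  have h2 := Pool.Agent.D0H15.SF.discr_bound pb.basis (fun i => B ^ (i : ℕ)) (fun φ i => by
    rw [pb.basis_eq_pow, map_pow, norm_pow]
    exact pow_le_pow_left₀ (norm_nonneg _) (hB φ) _)
  subst hn
  rw [Fintype.card_fin] at h2
  have h3 : ∏ i : Fin pb.dim, B ^ (i : ℕ) = B ^ (∑ i ∈ Finset.range pb.dim, i) := by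
    rw [← Finset.prod_pow_eq_pow_sum, Finset.prod_range]
  rw [h3, mul_pow, ← pow_mul, Finset.sum_range_id_mul_two] at h2
  have h4 : (((|((NumberField.discr F : ℤ) : ℚ)|) : ℚ) : ℝ) ≤ ((|Algebra.discr ℚ pb.basis| : ℚ) : ℝ) := by
    exact_mod_cast h1
  have h5 : ((|NumberField.discr F| : ℤ) : ℝ) = (((|((NumberField.discr F : ℤ) : ℚ)|) : ℚ) : ℝ) := by
    push_cast
    rfl
  rw [h5]
  exact h4.trans h2

/-- degree and leading coefficient of `pol` -/
theorem pol_monic {k n : ℕ} (hk : k < n) (a : Fin k → ℤ) (c : ℤ) (g : ℤ[X]) (hg : g.Monic)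
    (hd : g.natDegree = n - k) : (pol a g c).Monic ∧ (pol a g c).natDegree = n := by
  have hA : (∏ i, (X - C (a i)) : ℤ[X]).Monic := monic_prod_of_monic _ _ fun i _ => monic_X_sub_C _
  have hAd : (∏ i, (X - C (a i)) : ℤ[X]).natDegree = k := by
    rw [natDegree_prod_of_monic _ _ fun i _ => monic_X_sub_C _,
      Finset.sum_congr rfl (fun i _ => natDegree_X_sub_C (a i))]
    simp
  have h1 : ((∏ i, (X - C (a i))) * g : ℤ[X]).Monic := hA.mul hg
  have h2 : ((∏ i, (X - C (a i))) * g : ℤ[X]).natDegree = n := by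
    rw [hA.natDegree_mul hg, hAd, hd]
    omega
  have h3 : (C c : ℤ[X]).degree < ((∏ i, (X - C (a i))) * g : ℤ[X]).degree := by
    rw [degree_eq_natDegree h1.ne_zero, h2]
    refine (degree_C_le).trans_lt ?_
    exact_mod_cast (by omega : 0 < n)
  refine ⟨h1.add_of_left h3, ?_⟩
  rw [pol, natDegree_add_C, h2]

theorem one (hCLS : S_CLS) (hLOC : S_LOC) (hPLC : S_PLC) (hIDL : S_IDL)
    (n m r k w s : ℕ) (a : Fin k → ℤ) (g : ℤ[X]) (B : ℝ) (hm : 2 ≤ m) (hk : k = (n + 1) / 2 + r) (hkn : k + 2 ≤ n)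
    (hw : w.Prime)
    (hg : g.Monic) (hd : g.natDegree = n - k)
    (hgood : Good m w a (pol a g ((w : ℤ) ^ (s * m))))
    (hre : ∀ x y : ℝ, aeval x (pol a g ((w : ℤ) ^ (s * m))) = 0 → aeval y (pol a g ((w : ℤ) ^ (s * m))) = 0 → x = y)
    (hcx : ∀ z : ℂ, aeval z (pol a g ((w : ℤ) ^ (s * m))) = 0 → ‖z‖ ≤ B)
    (Ω : Type) [Field Ω] [CharZero Ω] (θ : Ω) (hθ : aeval θ (pol a g ((w : ℤ) ^ (s * m))) = 0) :
    ∃ _ : NumberField (IntermediateField.adjoin ℚ {θ}),
      Module.finrank ℚ (IntermediateField.adjoin ℚ {θ}) = n ∧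
      ((|NumberField.discr (IntermediateField.adjoin ℚ {θ})| : ℤ) : ℝ) ≤ (n.factorial : ℝ) ^ 2 * B ^ (n * (n - 1)) ∧
      InfinitePlace.nrRealPlaces (IntermediateField.adjoin ℚ {θ}) ≤ 1 ∧
      Fintype.card (InfinitePlace (IntermediateField.adjoin ℚ {θ})) = (n + 1) / 2 ∧
      HasCl (IntermediateField.adjoin ℚ {θ}) m r ∧
      minpoly ℤ θ = pol a g ((w : ℤ) ^ (s * m)) ∧ IsIntegral ℤ θ := by
  obtain ⟨f, hf⟩ : ∃ f, f = pol a g ((w : ℤ) ^ (s * m)) := ⟨_, rfl⟩
  have hmon := pol_monic (by omega : k < n) a ((w : ℤ) ^ (s * m)) g hg hd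
  rw [← hf] at hgood hre hcx hθ hmon ⊢
  obtain ⟨hirr, hcop, hq⟩ := hgood
  obtain ⟨hfm, hfd⟩ := hmon
  have hirrQ : Irreducible (f.map (algebraMap ℤ ℚ)) :=
    (hfm.irreducible_iff_irreducible_map_fraction_map).1 hirr
  have hintZ : IsIntegral ℤ θ := ⟨f, hfm, by rwa [aeval_def] at hθ⟩
  have hint : IsIntegral ℚ θ := hintZ.tower_top
  have hmin : f.map (algebraMap ℤ ℚ) = minpoly ℚ θ :=
    minpoly.eq_of_irreducible_of_monic hirrQ (by rw [aeval_map_algebraMap]; exact hθ) (hfm.map _)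
  obtain ⟨L, hL⟩ : ∃ L, L = IntermediateField.adjoin ℚ {θ} := ⟨_, rfl⟩
  have hfr : Module.finrank ℚ (IntermediateField.adjoin ℚ {θ}) = n := by
    rw [IntermediateField.adjoin.finrank hint, ← hmin, hfm.natDegree_map, hfd]
  have hfin : FiniteDimensional ℚ (IntermediateField.adjoin ℚ {θ}) :=
    IntermediateField.adjoin.finiteDimensional hint
  have hNF : NumberField (IntermediateField.adjoin ℚ {θ}) := ⟨⟩
  obtain ⟨pb, hpb, hpd⟩ : ∃ pb : PowerBasis ℚ (IntermediateField.adjoin ℚ {θ}),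
      pb.gen = IntermediateField.AdjoinSimple.gen ℚ θ ∧ pb.dim = n := by
    refine ⟨IntermediateField.adjoin.powerBasis hint, IntermediateField.adjoin.powerBasis_gen hint, ?_⟩
    rw [← (IntermediateField.adjoin.powerBasis hint).finrank, hfr]
  obtain ⟨t, ht⟩ : ∃ t : IntermediateField.adjoin ℚ {θ}, t = IntermediateField.AdjoinSimple.gen ℚ θ := ⟨_, rfl⟩
  have htθ : (t : Ω) = θ := by rw [ht]; exact IntermediateField.AdjoinSimple.coe_gen ℚ θ
  have ht0 : aeval t f = 0 := by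
    have h1 := aeval_algebraMap_apply Ω t f
    have h2 : algebraMap (IntermediateField.adjoin ℚ {θ}) Ω t = θ := htθ
    rw [h2, hθ] at h1
    exact ((map_eq_zero_iff _ (algebraMap (IntermediateField.adjoin ℚ {θ}) Ω).injective).1 h1.symm)
  have htint : IsIntegral ℤ t := ⟨f, hfm, by rwa [aeval_def] at ht0⟩
  have hgen : ∀ y : IntermediateField.adjoin ℚ {θ}, ∃ P : ℚ[X], y = aeval t P := by
    intro y
    obtain ⟨P, hP⟩ := pb.exists_eq_aeval' y
    exact ⟨P, by rw [ht, ← hpb]; exact hP⟩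
  have hconj : ∀ φ : IntermediateField.adjoin ℚ {θ} →+* ℂ, ‖φ t‖ ≤ B := by
    intro φ
    refine hcx _ ?_
    have h1 : φ (aeval t f) = aeval (φ t) f := by
      rw [aeval_def, aeval_def, hom_eval₂]
      congr 1
      exact RingHom.ext_int _ _
    rw [← h1, ht0, map_zero]
  obtain ⟨hr1, hr2, hr3⟩ := hPLC (IntermediateField.adjoin ℚ {θ}) f t n ht0 hgen hfr hre
  refine ⟨hNF, hfr, ?_, hr1, hr2, ?_, ?_, hintZ⟩
  · exact dsc _ pb n B hpd (by rw [hpb, ← ht]; exact htint) (fun φ => by rw [hpb, ← ht]; exact hconj φ)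
  · -- the class group
    have hne : ∀ i, t - (a i : IntermediateField.adjoin ℚ {θ}) ≠ 0 := by
      intro i h
      have h1 : t = algebraMap ℤ _ (a i) := by
        rw [sub_eq_zero] at h
        rw [h]; simp
      rw [h1, aeval_algebraMap_apply, hf, pol] at ht0
      have h2 : eval (a i) ((∏ j, (X - C (a j))) * g + C ((w : ℤ) ^ (s * m))) = (w : ℤ) ^ (s * m) := by
        rw [eval_add, eval_mul, eval_prod, Finset.prod_eq_zero (Finset.mem_univ i) (by simp), zero_mul, zero_add, eval_C]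
      rw [coe_aeval_eq_eval, h2] at ht0
      have h3 : ((w : ℤ) ^ (s * m)) ≠ 0 := pow_ne_zero _ (by exact_mod_cast hw.ne_zero)
      apply h3
      have h4 := (FaithfulSMul.algebraMap_injective ℤ (IntermediateField.adjoin ℚ {θ})) (ht0.trans (map_zero _).symm)
      exact h4
    refine hCLS (IntermediateField.adjoin ℚ {θ}) k m r hm (by omega) (fun i => Units.mk0 _ (hne i)) (fun i => ?_) ?_
    · refine hIDL _ k m w s a g t (by omega) htint (by rw [← hf]; exact ht0) i (by rw [← hf]; exact hcop i) _ rfl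
    · intro ℓ hℓ hℓm e y he i
      obtain ⟨q, hqp, hq1, hq2, hq3, hq4, hq5⟩ := hq i
      have : Fact q.Prime := ⟨hqp⟩
      obtain ⟨z, hz0, hz⟩ := hLOC (IntermediateField.adjoin ℚ {θ}) f t q k a hfm hirr ht0 hgen hq1 hq2 hq3 ℓ e y
        hℓ.one_lt.le (by
          have := congrArg (fun u : (IntermediateField.adjoin ℚ {θ})ˣ => (u : IntermediateField.adjoin ℚ {θ})) he
          simpa using this)
      refine hq5 ℓ hℓ hℓm (e i) z hz0 ?_
      rw [← hz]
      symm
      refine Finset.prod_eq_single i (fun j _ hj => ?_) (fun h => absurd (Finset.mem_univ i) h)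
      have h1 := hq4 j (Ne.symm hj)
      have h2 : ((a j : ℤ) : ZMod q) = ((-1 : ℤ) : ZMod q) := (ZMod.intCast_eq_intCast_iff _ _ _).2 h1
      rw [Int.cast_neg, h2]
      simp
  · have h1 : minpoly ℤ θ = f := by
      have h2 := minpoly.isIntegrallyClosed_eq_field_fractions' ℚ hintZ
      rw [← hmin] at h2
      exact (map_injective (algebraMap ℤ ℚ) (algebraMap ℤ ℚ).injective_int h2).symm
    exact h1

end Pool.Agent.D0H34.KC
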